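import Mathlib

/-! Definitions for MP_fafe86_al (finite 2-groups all of whose subgroups have core index at most 2). -/

set_option autoImplicit false

namespace Pool.Agent.Helper5.Core2

open Subgroup

/-! ## Groups -/

/-- `⟨x²⟩⟨y²⟩⟨(xy)²⟩`. -/
def PP {G : Type*} [Group G] (x y : G) : Subgroup G :=
  zpowers (x ^ 2) ⊔ zpowers (y ^ 2) ⊔ zpowers ((x * y) ^ 2)

/-- The class of `2`-groups we work with. -/
structure IsC (G : Type*) [Group G] : Prop where
  two : IsPGroup 2 G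
  F1 : ∀ x g : G, g * x ^ 2 * g⁻¹ ∈ zpowers (x ^ 2)
  star : ∀ x y : G, (∀ g, x * g * x⁻¹ * g⁻¹ ∈ PP x y) ∨ (∀ g, y * g * y⁻¹ * g⁻¹ ∈ PP x y) ∨ (∀ g, x * y * g * (x * y)⁻¹ * g⁻¹ ∈ PP x y)

/-- The subgroup generated by all squares. -/
def Sq (G : Type*) [Group G] : Subgroup G := closure (Set.range fun x : G => x ^ 2)

/-- The subgroup of all elements commuting with all squares. -/
def CC (G : Type*) [Group G] : Subgroup G := centralizer (Set.range fun x : G => x ^ 2)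

/-- The subgroup of central elements with square `1`. -/
def Om (G : Type*) [Group G] : Subgroup G where
  carrier := {z | z ∈ center G ∧ z ^ 2 = 1}
  mul_mem' := by
    rintro a b ⟨ha, ha2⟩ ⟨hb, hb2⟩
    refine ⟨mul_mem ha hb, ?_⟩
    have : a * b = b * a := (mem_center_iff.mp hb a)
    rw [(show Commute a b from this).mul_pow, ha2, hb2, one_mul]
  one_mem' := ⟨one_mem _, one_pow 2⟩
  inv_mem' := by
    rintro a ⟨ha, ha2⟩
    exact ⟨inv_mem ha, by rw [inv_pow, ha2, inv_one]⟩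

/-- The target property: an abelian subgroup of index at most `4` containing all squares. -/
def TT (G : Type*) [Group G] : Prop :=
  ∃ A : Subgroup G, Sq G ≤ A ∧ (∀ x ∈ A, ∀ y ∈ A, x * y = y * x) ∧ A.index ≤ 4

/-- `z` lies in every nontrivial normal subgroup. -/
def Mono {G : Type*} [Group G] (z : G) : Prop :=
  z ≠ 1 ∧ ∀ N : Subgroup G, N.Normal → N ≠ ⊥ → z ∈ N

/-- What we use about a minimal counterexample. -/
structure MinCE (G : Type*) [Group G] : Prop where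
  c : IsC G
  notT : ¬ TT G
  quot : ∀ N : Subgroup G, N.Normal → N ≠ ⊥ →
    ∃ A : Subgroup G, Sq G ≤ A ∧ N ≤ A ∧ (∀ x ∈ A, ∀ y ∈ A, x * y * x⁻¹ * y⁻¹ ∈ N) ∧ A.index ≤ 4
  center_le : center G ≤ Sq G

/-- `B` is a commutative self-centralizing subgroup containing all squares. -/
structure SC {G : Type*} [Group G] (B : Subgroup G) : Prop where
  sq_le : Sq G ≤ B
  comm : ∀ x ∈ B, ∀ y ∈ B, x * y = y * x
  cent : ∀ g, (∀ b ∈ B, g * b = b * g) → g ∈ B

/-! ## Linear algebra over `F₂` -/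

section Linear

variable {V T : Type*} [AddCommGroup V] [Module (ZMod 2) V] [AddCommGroup T] [Module (ZMod 2) T]

/-- A quadratic map `q` with polar form `β` satisfying (★). -/
structure IsQ (q : V → T) (β : V →ₗ[ZMod 2] V →ₗ[ZMod 2] T) : Prop where
  hq : ∀ x y, q (x + y) = q x + q y + β x y
  star : ∀ x y, (∀ v, β x v ∈ Submodule.span (ZMod 2) {q x, q y, q (x + y)}) ∨
    (∀ v, β y v ∈ Submodule.span (ZMod 2) {q x, q y, q (x + y)}) ∨
    (∀ v, β (x + y) v ∈ Submodule.span (ZMod 2) {q x, q y, q (x + y)})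

/-- There is a totally isotropic subspace of codimension at most `2`. -/
def Good (β : V →ₗ[ZMod 2] V →ₗ[ZMod 2] T) : Prop :=
  ∃ U : Submodule (ZMod 2) V, (∀ u ∈ U, ∀ v ∈ U, β u v = 0) ∧
    Module.finrank (ZMod 2) V ≤ Module.finrank (ZMod 2) U + 2

/-- The radical of `θ ∘ β`. -/
def RR (β : V →ₗ[ZMod 2] V →ₗ[ZMod 2] T) (θ : Module.Dual (ZMod 2) T) : Submodule (ZMod 2) V where
  carrier := {x | ∀ y, θ (β x y) = 0}
  add_mem' := by
    intro a b ha hb y
    simp [ha y, hb y]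
  zero_mem' := by intro y; simp
  smul_mem' := by
    intro c x hx y
    simp [hx y]

/-- What we use about a minimal bad configuration. -/
structure MinL (q : V → T) (β : V →ₗ[ZMod 2] V →ₗ[ZMod 2] T) : Prop where
  isQ : IsQ q β
  bad : ¬ Good β
  tmin : ∀ z : T, z ≠ 0 → ∃ U : Submodule (ZMod 2) V,
    Module.finrank (ZMod 2) V = Module.finrank (ZMod 2) U + 2 ∧
    (∀ u ∈ U, ∀ v ∈ U, β u v = 0 ∨ β u v = z)
  vmin : ∀ X : Submodule (ZMod 2) V, X ≠ ⊤ → ∃ I : Submodule (ZMod 2) V, I ≤ X ∧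
    (∀ u ∈ I, ∀ v ∈ I, β u v = 0) ∧
    Module.finrank (ZMod 2) X ≤ Module.finrank (ZMod 2) I + 2
  rad : ∀ v, (∀ w, β v w = 0) → v = 0
  spans : ∀ θ : Module.Dual (ZMod 2) T, θ ≠ 0 → ∃ v w, θ (β v w) ≠ 0

end Linear

end Pool.Agent.Helper5.Core2
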