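import Pool.Agent.Helper5.Core2.Defs
import Pool.Agent.Helper38.Core2.CCIndex

set_option autoImplicit false
set_option linter.unusedSectionVars false
set_option linter.unusedVariables false

namespace Pool.Agent.Helper5.Core2

open Subgroup Pool.Agent.Helper38.Core2

universe u

section Basic

variable {G : Type u} [Group G]

/-- commutator -/
def kk (c d : G) : G := c * d * c⁻¹ * d⁻¹

lemma kk_mul_left {c c' d : G} (h : kk c' d ∈ center G) : kk (c * c') d = kk c d * kk c' d := by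
  have h1 := mem_center_iff.mp h
  calc kk (c * c') d = c * kk c' d * (d * c⁻¹ * d⁻¹) := by unfold kk; group
    _ = kk c' d * c * (d * c⁻¹ * d⁻¹) := by rw [h1 c]
    _ = kk c' d * kk c d := by unfold kk; group
    _ = kk c d * kk c' d := (h1 _).symm

lemma kk_mul_right {c d d' : G} (h : kk c d' ∈ center G) : kk c (d * d') = kk c d * kk c d' := by
  have h1 := mem_center_iff.mp h
  calc kk c (d * d') = c * d * c⁻¹ * kk c d' * d⁻¹ := by unfold kk; group
    _ = kk c d' * (c * d * c⁻¹) * d⁻¹ := by rw [h1]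
    _ = kk c d' * kk c d := by unfold kk; group
    _ = kk c d * kk c d' := (h1 _).symm

lemma kk_swap (c d : G) : kk d c = (kk c d)⁻¹ := by unfold kk; group

lemma kk_self (c : G) : kk c c = 1 := by unfold kk; group

lemma kk_one_iff {c d : G} : kk c d = 1 ↔ c * d = d * c := by
  unfold kk
  constructor
  · intro h
    calc c * d = (c * d * c⁻¹ * d⁻¹) * (d * c) := by group
      _ = d * c := by rw [h, one_mul]
  · intro h
    rw [h]; group

lemma kk_mem_Sq (c d : G) : kk c d ∈ Sq G := by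
  have : kk c d = c ^ 2 * (c⁻¹ * d) ^ 2 * (d⁻¹) ^ 2 := by
    unfold kk; simp only [pow_two]; group
  rw [this]
  exact mul_mem (mul_mem (sq_mem_Sq _) (sq_mem_Sq _)) (sq_mem_Sq _)

/-- The center of `CC G`. -/
def ZC (G : Type u) [Group G] : Subgroup G := CC G ⊓ centralizer (CC G : Set G)

lemma mem_CC {c : G} : c ∈ CC G ↔ ∀ g : G, g ^ 2 * c = c * g ^ 2 := by
  unfold CC
  rw [mem_centralizer_iff]
  simp

lemma mem_ZC {s : G} : s ∈ ZC G ↔ s ∈ CC G ∧ ∀ g ∈ CC G, g * s = s * g := by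
  unfold ZC
  rw [mem_inf, mem_centralizer_iff]
  rfl

end Basic

/-- The context. -/
structure Ctx (G : Type u) [Group G] : Prop where
  ce : MinCE G
  idx : (CC G).index = 2
  sqc : ∀ x y : G, x ^ 2 * y ^ 2 = y ^ 2 * x ^ 2

section Ctx

variable {G : Type u} [Group G] [Finite G]

lemma Ctx.sq_mem (H : Ctx G) (x : G) : x ^ 2 ∈ CC G :=
  mem_CC.mpr (fun g => H.sqc g x)

lemma Ctx.CC_eq (H : Ctx G) {x : G} (hx : x ^ 2 ∉ center G) :
    centralizer ({x ^ 2} : Set G) = CC G := by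
  have hle : CC G ≤ centralizer ({x ^ 2} : Set G) := by
    intro c hc
    rw [mem_cent]
    exact (mem_CC.mp hc x).symm
  exact (eq_of_le_of_index hle H.idx.le (cent_ne_top hx)).1

lemma Ctx.sq_central (H : Ctx G) {u : G} (hu : u ∉ CC G) : u ^ 2 ∈ center G := by
  by_contra h1
  apply hu
  rw [← H.CC_eq h1, mem_cent]
  group

lemma Ctx.mem_of_sq (H : Ctx G) {x : G} (hx : x ^ 2 ∉ center G) : x ∈ CC G := by
  by_contra h
  exact hx (H.sq_central h)

lemma Ctx.Sq_le (H : Ctx G) : Sq G ≤ ZC G := by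
  unfold Sq
  rw [closure_le]
  rintro _ ⟨x, rfl⟩
  refine mem_ZC.mpr ⟨H.sq_mem x, fun g hg => ?_⟩
  exact (mem_CC.mp hg x).symm

lemma Ctx.notMem_mul (H : Ctx G) {u c : G} (hu : u ∉ CC G) (hc : c ∈ CC G) : u * c ∉ CC G := by
  intro h
  exact hu (by simpa using mul_mem h (inv_mem hc))

/-- `n(c) = u c u⁻¹ c` is central -/
lemma Ctx.nn_central (H : Ctx G) {u c : G} (hu : u ∉ CC G) (hc : c ∈ CC G) :
    u * c * u⁻¹ * c ∈ center G := by
  have h1 := H.sq_central hu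
  have h2 := H.sq_central (H.notMem_mul hu hc)
  have h3 : u * c * u⁻¹ * c = (u ^ 2)⁻¹ * (u * c) ^ 2 := by
    have h4 : u ^ 2 * (u * c * u⁻¹ * c) = (u * c) ^ 2 := by
      calc u ^ 2 * (u * c * u⁻¹ * c) = u ^ 2 * (u * c * u⁻¹) * c := by group
        _ = (u * c * u⁻¹) * u ^ 2 * c := by rw [mem_center_iff.mp h1]
        _ = (u * c) ^ 2 := by simp only [pow_two]; group
    rw [← h4]; group
  rw [h3]
  exact mul_mem (inv_mem h1) h2

lemma Ctx.sq_mul (H : Ctx G) {u c : G} (hu : u ∉ CC G) :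
    (u * c) ^ 2 = u ^ 2 * (u * c * u⁻¹ * c) := by
  have h1 := H.sq_central hu
  symm
  calc u ^ 2 * (u * c * u⁻¹ * c) = u ^ 2 * (u * c * u⁻¹) * c := by group
    _ = (u * c * u⁻¹) * u ^ 2 * c := by rw [mem_center_iff.mp h1]
    _ = (u * c) ^ 2 := by simp only [pow_two]; group

lemma Ctx.kk_comm (H : Ctx G) {c d g : G} (hg : g ∈ CC G) : g * kk c d = kk c d * g :=
  (mem_ZC.mp (H.Sq_le (kk_mem_Sq c d))).2 g hg

lemma Ctx.exists_notMem (H : Ctx G) : ∃ u : G, u ∉ CC G := by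
  by_contra hcon
  push Not at hcon
  have : CC G = ⊤ := eq_top_iff.mpr (fun g _ => hcon g)
  have h2 := H.idx
  rw [this, index_top] at h2
  omega

lemma Ctx.kk_central (H : Ctx G) {c d : G} (hc : c ∈ CC G) (hd : d ∈ CC G) :
    kk c d ∈ center G := by
  rw [mem_center_iff]
  intro g
  by_cases hg : g ∈ CC G
  · exact H.kk_comm hg
  · -- `g` acts on `CC G` as inversion times central
    have h1 := H.nn_central hg hc
    have h2 := H.nn_central hg hd
    set a := g * c * g⁻¹ * c with ha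
    set b := g * d * g⁻¹ * d with hb
    have h3 : g * c * g⁻¹ = a * c⁻¹ := by rw [ha]; group
    have h4 : g * d * g⁻¹ = b * d⁻¹ := by rw [hb]; group
    have ca := mem_center_iff.mp h1
    have cb := mem_center_iff.mp h2
    have h5 : g * kk c d * g⁻¹ = kk c d := by
      calc g * kk c d * g⁻¹ = kk (g * c * g⁻¹) (g * d * g⁻¹) := by unfold kk; group
        _ = kk (a * c⁻¹) (b * d⁻¹) := by rw [h3, h4]
        _ = a * (c⁻¹ * b) * d⁻¹ * (a * c⁻¹)⁻¹ * (b * d⁻¹)⁻¹ := by unfold kk; group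
        _ = a * (b * c⁻¹) * d⁻¹ * (a * c⁻¹)⁻¹ * (b * d⁻¹)⁻¹ := by rw [cb c⁻¹]
        _ = a * b * (c⁻¹ * d⁻¹ * c) * a⁻¹ * d * b⁻¹ := by group
        _ = a * b * (a⁻¹ * (c⁻¹ * d⁻¹ * c)) * d * b⁻¹ := by
            have : (c⁻¹ * d⁻¹ * c) * a⁻¹ = a⁻¹ * (c⁻¹ * d⁻¹ * c) :=
              mem_center_iff.mp (inv_mem h1) _
            rw [← this]; group
        _ = (a * b * a⁻¹) * (c⁻¹ * d⁻¹ * c * d) * b⁻¹ := by group
        _ = b * (c⁻¹ * d⁻¹ * c * d) * b⁻¹ := by rw [cb a]; group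
        _ = c⁻¹ * d⁻¹ * c * d := by rw [← cb]; group
        _ = c⁻¹ * d⁻¹ * (kk c d * (d * c)) := by unfold kk; group
        _ = c⁻¹ * (d⁻¹ * kk c d) * (d * c) := by group
        _ = c⁻¹ * (kk c d * d⁻¹) * (d * c) := by rw [H.kk_comm (inv_mem hd)]
        _ = (c⁻¹ * kk c d) * c := by group
        _ = kk c d := by rw [H.kk_comm (inv_mem hc)]; group
    calc g * kk c d = (g * kk c d * g⁻¹) * g := by group
      _ = kk c d * g := by rw [h5]

lemma Ctx.kk_sq (H : Ctx G) {c d : G} (hc : c ∈ CC G) (hd : d ∈ CC G) : kk c d ^ 2 = 1 := by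
  have h1 : kk (c * c) d = kk c d * kk c d := kk_mul_left (H.kk_central hc hd)
  have h2 : kk (c * c) d = 1 := by
    rw [kk_one_iff, ← pow_two]
    exact mem_CC.mp hd c
  rw [pow_two, ← h1, h2]

lemma Ctx.kk_symm (H : Ctx G) {c d : G} (hc : c ∈ CC G) (hd : d ∈ CC G) : kk d c = kk c d := by
  rw [kk_swap]
  have := H.kk_sq hc hd
  rw [pow_two] at this
  exact inv_eq_of_mul_eq_one_left this

lemma Ctx.kk_om (H : Ctx G) {c d : G} (hc : c ∈ CC G) (hd : d ∈ CC G) : kk c d ∈ Om G :=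
  ⟨H.kk_central hc hd, H.kk_sq hc hd⟩

lemma Ctx.kml (H : Ctx G) {c c' d : G} (hc' : c' ∈ CC G) (hd : d ∈ CC G) :
    kk (c * c') d = kk c d * kk c' d := kk_mul_left (H.kk_central hc' hd)

lemma Ctx.kmr (H : Ctx G) {c d d' : G} (hc : c ∈ CC G) (hd' : d' ∈ CC G) :
    kk c (d * d') = kk c d * kk c d' := kk_mul_right (H.kk_central hc hd')

lemma Ctx.mem_ZC_iff (H : Ctx G) {s : G} (hs : s ∈ CC G) :
    s ∈ ZC G ↔ ∀ c ∈ CC G, kk s c = 1 := by
  rw [mem_ZC]
  constructor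
  · rintro ⟨_, h⟩ c hc
    exact kk_one_iff.mpr (h c hc).symm
  · intro h
    exact ⟨hs, fun c hc => (kk_one_iff.mp (h c hc)).symm⟩

lemma om_sq {w : G} (hw : w ∈ Om G) : w * w = 1 := by
  have := hw.2
  rwa [pow_two] at this

lemma om_comm {w : G} (hw : w ∈ Om G) (g : G) : g * w = w * g := mem_center_iff.mp hw.1 g

end Ctx

end Pool.Agent.Helper5.Core2
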