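import Pool.Agent.Helper5.Core2.C8a
import Pool.Agent.Helper95.Core2.Mono

set_option autoImplicit false
set_option linter.unusedSectionVars false
set_option linter.unusedVariables false

namespace Pool.Agent.Helper5.Core2

open Subgroup Pool.Agent.Helper38.Core2

universe u

variable {G : Type u} [Group G] [Finite G]

/-- `z` is the involution of `zpowers (x²)` for a non-central square `x²`. -/
structure Wit (x z : G) : Prop where
  hx : x ^ 2 ∉ center G
  mem : z ∈ zpowers (x ^ 2)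
  ne : z ≠ 1
  om : z ∈ Om G

lemma exists_om_notin (hb : 8 ≤ Nat.card (Om G)) (F : Finset G) (hF : F.card < 8) :
    ∃ z ∈ Om G, z ∉ F := by
  classical
  by_contra hcon
  push Not at hcon
  have hsub : (Om G : Set G) ⊆ (F : Set G) := fun a ha => hcon a ha
  have h5 := Set.ncard_le_ncard hsub (Finset.finite_toSet _)
  rw [Set.ncard_coe_finset] at h5
  have h7 : Nat.card (Om G) = (Om G : Set G).ncard := rfl
  omega

lemma Ctx.AZ_le (H : Ctx G) {x z0 z : G} (W : Wit x z0) (hz : z ∈ Om G) (hz1 : z ≠ 1)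
    (hz0 : z ≠ z0) : ∃ A : Subgroup G, AZ z A ∧ A ≤ CC G := by
  obtain ⟨A, hA⟩ := exists_AZ H.ce hz hz1
  refine ⟨A, hA, ?_⟩
  rw [← H.CC_eq W.hx]
  apply hA.le_cent H.ce.c hz.2
  intro h1
  exact hz0 (inv_unique h1 W.mem hz.2 W.om.2 hz1 W.ne)

lemma Ctx.pair (H : Ctx G) {x z0 z : G} (W : Wit x z0) (hz : z ∈ Om G) (hz1 : z ≠ 1)
    (hz0 : z ≠ z0) : ∃ c ∈ CC G, ∃ d ∈ CC G, kk c d = z := by
  obtain ⟨A, hA, hAC⟩ := H.AZ_le W hz hz1 hz0
  obtain ⟨c, hc, d, hd, hcd⟩ := hA.not_comm H.ce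
  refine ⟨c, hAC hc, d, hAC hd, ?_⟩
  rcases zpowers_two hz.2 (hA.comm c hc d hd) with h1 | h1
  · exact absurd h1 (comm_ne_one hcd)
  · exact h1

lemma rel_two {A K : Subgroup G} (h : A.relIndex K ≤ 2) {a b : G} (ha : a ∈ K) (hb : b ∈ K)
    (ha' : a ∉ A) (hb' : b ∉ A) : a⁻¹ * b ∈ A := by
  have h0 : (A.subgroupOf K).index ≠ 0 := index_ne_zero_of_finite
  have h1 : (A.subgroupOf K).index ≤ 2 := h
  have h2 : (A.subgroupOf K).index = 1 ∨ (A.subgroupOf K).index = 2 := by omega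
  rcases h2 with h2 | h2
  · rw [index_eq_one] at h2
    have : (⟨a, ha⟩ : K) ∈ A.subgroupOf K := h2 ▸ mem_top _
    exact absurd this ha'
  · have h3 := (mul_mem_iff_of_index_two h2 (a := (⟨a, ha⟩ : K)⁻¹) (b := ⟨b, hb⟩)).mpr
      ⟨fun h => absurd ((inv_mem_iff (x := (⟨a, ha⟩ : K))).mp h) ha', fun h => absurd h hb'⟩
    exact h3

lemma rel_le_two {A K : Subgroup G} (h : ∀ a ∈ K, ∀ b ∈ K, a ∉ A → b ∉ A → a⁻¹ * b ∈ A) :
    A.relIndex K ≤ 2 := by
  refine Helper95.Core2.index_le_two_of (A.subgroupOf K) ?_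
  rintro ⟨a, ha⟩ ⟨b, hb⟩ ha' hb'
  exact h a ha b hb ha' hb'

/-- commutative subgroups of `CC G` have relative index at least `3` -/
lemma Ctx.no_comm (H : Ctx G) (B : Subgroup G) (hS : Sq G ≤ B) (hB : B ≤ CC G)
    (hcomm : ∀ x ∈ B, ∀ y ∈ B, x * y = y * x) : 3 ≤ B.relIndex (CC G) := by
  by_contra hlt
  apply H.ce.notT
  refine ⟨B, hS, hcomm, ?_⟩
  rw [← relIndex_mul_index hB, H.idx]
  omega

lemma Ctx.rel_ZC (H : Ctx G) (hb : 8 ≤ Nat.card (Om G)) {x z0 : G} (W : Wit x z0) :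
    (ZC G).relIndex (CC G) ≤ 8 := by
  classical
  obtain ⟨z1, hz1, h1⟩ := exists_om_notin hb {1, z0} (lt_of_le_of_lt Finset.card_le_two (by norm_num))
  simp only [Finset.mem_insert, Finset.mem_singleton, not_or] at h1
  obtain ⟨z2, hz2, h2⟩ := exists_om_notin hb {1, z0, z1, z0 * z1}
    (lt_of_le_of_lt Finset.card_le_four (by norm_num))
  simp only [Finset.mem_insert, Finset.mem_singleton, not_or] at h2
  obtain ⟨h11, h10⟩ := h1
  obtain ⟨h21, h20, h2z, h2zz⟩ := h2
  have e0 := om_sq W.om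
  have e1 := om_sq hz1
  have e2 := om_sq hz2
  have hz3 : z0 * z1 ∈ Om G := mul_mem W.om hz1
  have h31 : z0 * z1 ≠ 1 := by
    intro h
    apply h10
    calc z1 = z0 * (z0 * z1) := by rw [← mul_assoc, e0, one_mul]
      _ = z0 := by rw [h, mul_one]
  have h30 : z0 * z1 ≠ z0 := by
    intro h
    exact h11 (mul_eq_left.mp h)
  obtain ⟨A1, hA1, hA1C⟩ := H.AZ_le W hz1 h11 h10
  obtain ⟨A2, hA2, hA2C⟩ := H.AZ_le W hz2 h21 h20
  obtain ⟨A3, hA3, hA3C⟩ := H.AZ_le W hz3 h31 h30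
  have hrel : ∀ {z : G} {A : Subgroup G}, AZ z A → A ≤ CC G → A.relIndex (CC G) ≤ 2 := by
    intro z A hA hAC
    have h3 := relIndex_mul_index hAC
    have h4 := hA.index_le
    rw [H.idx] at h3
    omega
  -- two different `A`'s generate
  have key : ∀ {z z' : G} {A A' : Subgroup G}, z ∈ Om G → z' ∈ Om G → z ≠ z' → AZ z A → AZ z' A' →
      A ≤ CC G → A' ≤ CC G → ∀ j ∈ A, j ∈ A' → ∀ c ∈ CC G, kk j c = 1 ∨ kk j c = z ∨ kk j c = z' ∨
        kk j c = z * z' := by
    intro z z' A A' hz hz' hne hA hA' hAC hAC' j hj hj' c hc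
    obtain ⟨a, ha, haA⟩ : ∃ a ∈ A', a ∉ A := by
      by_contra hcon
      push Not at hcon
      obtain ⟨c, hc, d, hd, hcd⟩ := hA'.not_comm H.ce
      have h5 := comm_ne_one hcd
      rcases zpowers_two hz'.2 (hA'.comm c hc d hd) with h6 | h6
      · exact h5 h6
      · rcases zpowers_two hz.2 (hA.comm c (hcon c hc) d (hcon d hd)) with h7 | h7
        · exact h5 h7
        · exact hne (h7.symm.trans h6)
    by_cases hcA : c ∈ A
    · rcases zpowers_two hz.2 (hA.comm j hj c hcA) with h6 | h6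
      · exact Or.inl h6
      · exact Or.inr (Or.inl h6)
    · have h7 : a⁻¹ * c ∈ A := rel_two (hrel hA hAC) (hAC' ha) hc haA hcA
      have h8 : c = a * (a⁻¹ * c) := by group
      have h9 : kk j c = kk j a * kk j (a⁻¹ * c) := by
        conv_lhs => rw [h8]
        exact H.kmr (hAC hj) (hAC h7)
      rw [h9]
      rcases zpowers_two hz'.2 (hA'.comm j hj' a ha) with h6 | h6 <;>
        rcases zpowers_two hz.2 (hA.comm j hj _ h7) with h7 | h7 <;>
        rw [show kk j a = _ from h6, show kk j (a⁻¹ * c) = _ from h7]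
      · simp
      · simp
      · simp
      · right; right; right
        exact (om_comm hz z')
  have hJ : A1 ⊓ A2 ⊓ A3 ≤ ZC G := by
    rintro j ⟨⟨hj1, hj2⟩, hj3⟩
    have hj1 : j ∈ A1 := hj1
    have hj2 : j ∈ A2 := hj2
    have hj3 : j ∈ A3 := hj3
    rw [H.mem_ZC_iff (hA1C hj1)]
    intro c hc
    have n13 : z1 ≠ z0 * z1 := by
      intro h
      exact W.ne (mul_eq_right.mp h.symm)
    have k12 := key hz1 hz2 (Ne.symm h2z) hA1 hA2 hA1C hA2C j hj1 hj2 c hc
    have k13 := key hz1 hz3 n13 hA1 hA3 hA1C hA3C j hj1 hj3 c hc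
    have k23 := key hz2 hz3 h2zz hA2 hA3 hA2C hA3C j hj2 hj3 c hc
    by_contra hne
    have k12' := k12.resolve_left hne
    have k13' := k13.resolve_left hne
    have k23' := k23.resolve_left hne
    -- `z1 * (z0 * z1) = z0`
    have e3 : z1 * (z0 * z1) = z0 := by
      rw [← mul_assoc, om_comm W.om z1, mul_assoc, e1, mul_one]
    rw [e3] at k13'
    have n1 : z1 ≠ z2 * (z0 * z1) := by
      intro h
      apply h20
      calc z2 = z2 * (z0 * z1) * (z0 * z1)⁻¹ := by group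
        _ = z1 * (z0 * z1)⁻¹ := by rw [← h]
        _ = z0⁻¹ := by rw [mul_inv_rev]; group
        _ = z0 := inv_eq_of_mul_eq_one_left e0
    rcases k12' with h | h | h
    · rcases k23' with h' | h' | h'
      · exact h2z (h'.symm.trans h)
      · exact n13 (h.symm.trans h')
      · exact n1 (h.symm.trans h')
    · rcases k13' with h' | h' | h'
      · exact h2z (h.symm.trans h')
      · exact h2zz (h.symm.trans h')
      · exact h20 (h.symm.trans h')
    · rcases k13' with h' | h' | h'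
      · exact h21 (mul_eq_left.mp (h.symm.trans h'))
      · have h5 : z2 * z1 = z0 * z1 := by rw [om_comm hz1 z2, ← h, h']
        exact h20 (mul_right_cancel h5)
      · apply h2zz
        calc z2 = z1 * (z1 * z2) := by rw [← mul_assoc, e1, one_mul]
          _ = z1 * z0 := by rw [← h, h']
          _ = z0 * z1 := om_comm W.om z1
  have h3 : (A1 ⊓ A2 ⊓ A3).relIndex (CC G) ≤ 8 := by
    have h4 := relIndex_inf_le (H := A1 ⊓ A2) (K := A3) (L := CC G)
    have h5 := relIndex_inf_le (H := A1) (K := A2) (L := CC G)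
    have h6 := hrel hA1 hA1C
    have h7 := hrel hA2 hA2C
    have h8 := hrel hA3 hA3C
    calc (A1 ⊓ A2 ⊓ A3).relIndex (CC G) ≤ (A1 ⊓ A2).relIndex (CC G) * A3.relIndex (CC G) := h4
      _ ≤ (A1.relIndex (CC G) * A2.relIndex (CC G)) * A3.relIndex (CC G) :=
          Nat.mul_le_mul_right _ h5
      _ ≤ (2 * 2) * 2 := Nat.mul_le_mul (Nat.mul_le_mul h6 h7) h8
      _ = 8 := by norm_num
  have h9 := relIndex_dvd_of_le_left (CC G) hJ
  have h10 : (A1 ⊓ A2 ⊓ A3).relIndex (CC G) ≠ 0 := by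
    unfold relIndex; exact index_ne_zero_of_finite
  exact (Nat.le_of_dvd (Nat.pos_of_ne_zero h10) h9).trans h3

end Pool.Agent.Helper5.Core2
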