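import Pool.Agent.Helper5.Core2.C8b

set_option autoImplicit false
set_option linter.unusedSectionVars false
set_option linter.unusedVariables false

namespace Pool.Agent.Helper5.Core2

open Subgroup Pool.Agent.Helper38.Core2

universe u

variable {G : Type u} [Group G] [Finite G]

lemma ZC_le : ZC G ≤ CC G := fun s hs => (mem_ZC.mp hs).1

/-- the commutative subgroup generated by `ZC` and commuting elements -/
lemma Ctx.closure_ZC (H : Ctx G) (S : Set G) (hS : S ⊆ CC G)
    (hc : ∀ x ∈ S, ∀ y ∈ S, x * y = y * x) :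
    ∃ B : Subgroup G, ZC G ≤ B ∧ S ⊆ B ∧ B ≤ CC G ∧ (∀ x ∈ B, ∀ y ∈ B, x * y = y * x) ∧
      (∀ B' : Subgroup G, ZC G ≤ B' → S ⊆ B' → B ≤ B') := by
  refine ⟨closure ((ZC G : Set G) ∪ S), ?_, ?_, ?_, ?_, ?_⟩
  · intro s hs
    exact subset_closure (Or.inl hs)
  · intro s hs
    exact subset_closure (Or.inr hs)
  · rw [closure_le]
    rintro s (hs | hs)
    · exact ZC_le hs
    · exact hS hs
  · apply Helper95.Core2.closure_comm
    rintro x (hx | hx) y (hy | hy)
    · exact (mem_ZC.mp hy).2 x (ZC_le hx)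
    · exact ((mem_ZC.mp hx).2 y (hS hy)).symm
    · exact (mem_ZC.mp hy).2 x (hS hx)
    · exact hc x hx y hy
  · intro B' h1 h2
    rw [closure_le]
    rintro s (hs | hs)
    · exact h1 hs
    · exact h2 hs

lemma relIndex_pos (A K : Subgroup G) : 1 ≤ A.relIndex K := by
  have h : A.relIndex K ≠ 0 := by unfold relIndex; exact index_ne_zero_of_finite
  omega

lemma relIndex_two_le {A K : Subgroup G} {a : G} (ha : a ∈ K) (ha' : a ∉ A) :
    2 ≤ A.relIndex K := by
  have h := relIndex_pos A K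
  by_contra hlt
  have h1 : A.relIndex K = 1 := by omega
  rw [relIndex_eq_one] at h1
  exact ha' (h1 ha)

lemma Ctx.NC (H : Ctx G) (hb : 8 ≤ Nat.card (Om G)) {x z0 : G} (W : Wit x z0) {c d : G}
    (hc : c ∈ CC G) (hd : d ∈ CC G) (hcd : kk c d = 1) :
    c ∈ ZC G ∨ d ∈ ZC G ∨ c⁻¹ * d ∈ ZC G := by
  by_contra hcon
  push Not at hcon
  obtain ⟨h1, h2, h3⟩ := hcon
  obtain ⟨B, hZB, hSB, hBC, hcomm, -⟩ := H.closure_ZC {c, d} (by
      rintro y (rfl | rfl)
      · exact hc
      · exact hd) (by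
      have h4 := kk_one_iff.mp hcd
      rintro y (rfl | rfl) w (rfl | rfl)
      · rfl
      · exact h4
      · exact h4.symm
      · rfl)
  have h4 := H.no_comm B (H.Sq_le.trans hZB) hBC hcomm
  have h5 := relIndex_mul_relIndex (ZC G) B (CC G) hZB hBC
  have h6 := H.rel_ZC hb W
  have h7 : (ZC G).relIndex B ≤ 2 := by
    by_contra h8
    have h9 : 3 * 3 ≤ (ZC G).relIndex B * B.relIndex (CC G) := Nat.mul_le_mul (by omega) h4
    omega
  exact h3 (rel_two h7 (hSB (by simp)) (hSB (by simp)) h1 h2)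

lemma Ctx.G3 (H : Ctx G) (hb : 8 ≤ Nat.card (Om G)) {x z0 : G} (W : Wit x z0) {c κ : G}
    (hc : c ∈ CC G) (hc' : c ∉ ZC G) (hκ : κ ∈ Om G) :
    ∃ e ∈ CC G, kk e c ≠ 1 ∧ kk e c ≠ κ := by
  by_contra hcon
  push Not at hcon
  have hK : ∀ {a : G}, a ∈ CC G ⊓ centralizer ({c} : Set G) ↔ a ∈ CC G ∧ kk a c = 1 := by
    intro a
    rw [mem_inf, mem_cent, kk_one_iff]
  have h1 := H.no_comm (CC G ⊓ centralizer ({c} : Set G)) ?_ inf_le_left ?_
  · have h2 : (CC G ⊓ centralizer ({c} : Set G)).relIndex (CC G) ≤ 2 := by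
      apply rel_le_two
      intro a ha b hb' ha' hb''
      rw [hK] at ha' hb'' ⊢
      have ha1 : kk a c ≠ 1 := fun h => ha' ⟨ha, h⟩
      have hb1 : kk b c ≠ 1 := fun h => hb'' ⟨hb', h⟩
      have ha2 := hcon a ha ha1
      have hb2 := hcon b hb' hb1
      refine ⟨mul_mem (inv_mem ha) hb', ?_⟩
      have h3 : kk b c = kk a c * kk (a⁻¹ * b) c := by
        rw [← H.kml (mul_mem (inv_mem ha) hb') hc]
        congr 1
        group
      rw [ha2, hb2] at h3
      exact mul_eq_left.mp h3.symm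
    omega
  · intro s hs
    have hs' := H.Sq_le hs
    rw [hK]
    exact ⟨ZC_le hs', (H.mem_ZC_iff (ZC_le hs')).mp hs' c hc⟩
  · intro a ha b hb'
    rw [hK] at ha hb'
    rcases H.NC hb W ha.1 hc ha.2 with h | h | h
    · exact ((mem_ZC.mp h).2 b hb'.1).symm
    · exact absurd h hc'
    · have h2 := kk_one_iff.mp hb'.2
      have h3 := (mem_ZC.mp (inv_mem h)).2 b hb'.1
      have h4 : a = c * (a⁻¹ * c)⁻¹ := by group
      rw [h4]
      calc c * (a⁻¹ * c)⁻¹ * b = c * (b * (a⁻¹ * c)⁻¹) := by rw [h3]; group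
        _ = (b * c) * (a⁻¹ * c)⁻¹ := by rw [h2]; group
        _ = b * (c * (a⁻¹ * c)⁻¹) := by group

lemma Ctx.ne_ZC (H : Ctx G) {c d : G} (hc : c ∈ CC G) (hd : d ∈ CC G) (h : kk c d ≠ 1) :
    c ∉ ZC G ∧ d ∉ ZC G ∧ c⁻¹ * d ∉ ZC G := by
  refine ⟨fun h1 => h ((H.mem_ZC_iff hc).mp h1 d hd),
    fun h1 => h ((H.kk_symm hd hc).trans ((H.mem_ZC_iff hd).mp h1 c hc)), fun h1 => h ?_⟩
  have h2 := (mem_ZC.mp h1).2 c hc
  rw [kk_one_iff]
  calc c * d = c * (c * (c⁻¹ * d)) := by group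
    _ = c * ((c⁻¹ * d) * c) := by rw [h2]
    _ = d * c := by group

/-- The subgroup generated by `ZC`, `c`, `d`. -/
lemma Ctx.M1 (H : Ctx G) (hb : 8 ≤ Nat.card (Om G)) {x z0 : G} (W : Wit x z0) {c d : G}
    (hc : c ∈ CC G) (hd : d ∈ CC G) (hcd : kk c d ≠ 1) :
    ∃ M : Subgroup G, ZC G ≤ M ∧ c ∈ M ∧ d ∈ M ∧ M ≤ CC G ∧ M.relIndex (CC G) ≤ 2 ∧
      (∀ m ∈ M, (kk m c = 1 ∨ kk m c = kk c d) ∧ (kk m d = 1 ∨ kk m d = kk c d)) ∧
      (∀ B' : Subgroup G, ZC G ≤ B' → c ∈ B' → d ∈ B' → M ≤ B') := by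
  set κ := kk c d with hκ
  have hκo : κ ∈ Om G := H.kk_om hc hd
  obtain ⟨n1, n2, n3⟩ := H.ne_ZC hc hd hcd
  obtain ⟨B, hZB, hSB, hBC, hcomm, hBmin⟩ := H.closure_ZC {c} (by rintro y rfl; exact hc) (by
    rintro y rfl w rfl; rfl)
  have hcB : c ∈ B := hSB rfl
  have hdB : d ∉ B := fun h => hcd (kk_one_iff.mpr (hcomm c hcB d h))
  set M := closure ((B : Set G) ∪ {d}) with hM
  have hBM : B ≤ M := fun b hb => subset_closure (Or.inl hb)
  have hdM : d ∈ M := subset_closure (Or.inr rfl)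
  have hMC : M ≤ CC G := by
    rw [hM, closure_le]
    rintro s (hs | hs)
    · exact hBC hs
    · rw [Set.mem_singleton_iff.mp hs]; exact hd
  refine ⟨M, hZB.trans hBM, hBM hcB, hdM, hMC, ?_, ?_, ?_⟩
  · have h1 := relIndex_mul_relIndex (ZC G) B (CC G) hZB hBC
    have h2 := relIndex_mul_relIndex B M (CC G) hBM hMC
    have h3 := H.rel_ZC hb W
    have h4 := relIndex_two_le hcB n1
    have h5 := relIndex_two_le hdM hdB
    by_contra h6
    have h7 : 2 * 3 ≤ B.relIndex M * M.relIndex (CC G) := Nat.mul_le_mul h5 (by omega)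
    have h8 : 2 * (2 * 3) ≤ (ZC G).relIndex B * B.relIndex (CC G) := by
      rw [← h2]
      exact Nat.mul_le_mul h4 h7
    omega
  · -- the set of `m` is a subgroup
    have hcl : ∀ e ∈ CC G, (∀ b ∈ B, kk b e = 1 ∨ kk b e = κ) → (kk d e = 1 ∨ kk d e = κ) →
        ∀ m ∈ M, kk m e = 1 ∨ kk m e = κ := by
      intro e he hBe hde m hm
      have key : ∀ m ∈ M, kk m e ∈ zpowers κ := by
        intro m hm
        rw [hM] at hm
        have hmC : m ∈ CC G ∧ kk m e ∈ zpowers κ := by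
          induction hm using closure_induction with
          | mem y hy =>
            rcases hy with hy | hy
            · refine ⟨hBC hy, ?_⟩
              rcases hBe y hy with h | h <;> rw [h]
              · exact one_mem _
              · exact mem_zpowers _
            · rw [Set.mem_singleton_iff.mp hy]
              refine ⟨hd, ?_⟩
              rcases hde with h | h <;> rw [h]
              · exact one_mem _
              · exact mem_zpowers _
          | one =>
            refine ⟨one_mem _, ?_⟩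
            have : kk 1 e = 1 := by unfold kk; group
            rw [this]; exact one_mem _
          | mul a b _ _ iha ihb =>
            refine ⟨mul_mem iha.1 ihb.1, ?_⟩
            rw [H.kml ihb.1 he]
            exact mul_mem iha.2 ihb.2
          | inv a _ iha =>
            refine ⟨inv_mem iha.1, ?_⟩
            have h1 : kk a e * kk a⁻¹ e = 1 := by
              rw [← H.kml (inv_mem iha.1) he]
              have : a * a⁻¹ = 1 := by group
              rw [this]; unfold kk; group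
            have h2 : kk a⁻¹ e = (kk a e)⁻¹ := (inv_eq_of_mul_eq_one_right h1).symm
            rw [h2]
            exact inv_mem iha.2
        exact hmC.2
      exact zpowers_two hκo.2 (key m hm)
    intro m hm
    refine ⟨hcl c hc ?_ ?_ m hm, hcl d hd ?_ ?_ m hm⟩
    · intro b hb'
      left
      exact kk_one_iff.mpr (hcomm b hb' c hcB)
    · right
      rw [H.kk_symm hc hd]
    · -- `kk b d` for `b ∈ B = ⟨ZC, c⟩`
      intro b hb'
      -- index argument: `b ∈ ZC` or `b⁻¹ * c ∈ ZC` by NC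
      rcases H.NC hb W (hBC hb') hc (kk_one_iff.mpr (hcomm b hb' c hcB)) with h | h | h
      · left; exact (H.mem_ZC_iff (hBC hb')).mp h d hd
      · exact absurd h n1
      · right
        have h1 := (H.mem_ZC_iff (mul_mem (inv_mem (hBC hb')) hc)).mp h d hd
        have h2 : kk c d = kk b d * kk (b⁻¹ * c) d := by
          rw [← H.kml (mul_mem (inv_mem (hBC hb')) hc) hd]
          congr 1
          group
        rw [h1, mul_one] at h2
        exact h2.symm
    · left; exact kk_self d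
  · intro B' h1 h2 h3
    rw [hM, closure_le]
    rintro s (hs | hs)
    · exact hBmin B' h1 (by rintro y rfl; exact h2) hs
    · rw [Set.mem_singleton_iff.mp hs]; exact h3

lemma Ctx.CV (H : Ctx G) (hb : 8 ≤ Nat.card (Om G)) {x z0 : G} (W : Wit x z0) {c d c' d' : G}
    (hc : c ∈ CC G) (hd : d ∈ CC G) (hcd : kk c d ≠ 1)
    (hc' : c' ∈ CC G) (hd' : d' ∈ CC G) (hcd' : kk c' d' ≠ 1) :
    ∃ v ∈ CC G, ∃ b ∈ CC G, ∃ b' ∈ CC G, kk v b = kk c d ∧ kk v b' = kk c' d' := by
  obtain ⟨M, hZM, hcM, hdM, hMC, hMi, hM, -⟩ := H.M1 hb W hc hd hcd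
  obtain ⟨n1, n2, n3⟩ := H.ne_ZC hc hd hcd
  have key : ∀ v ∈ M, v ∉ ZC G → ∃ b ∈ CC G, kk v b = kk c d := by
    intro v hv hvZ
    rcases (hM v hv).1 with h1 | h1
    · rcases (hM v hv).2 with h2 | h2
      · exfalso
        rcases H.NC hb W (hMC hv) hc h1 with h3 | h3 | h3
        · exact hvZ h3
        · exact n1 h3
        · rcases H.NC hb W (hMC hv) hd h2 with h4 | h4 | h4
          · exact hvZ h4
          · exact n2 h4
          · apply n3
            have : c⁻¹ * d = (v⁻¹ * c)⁻¹ * (v⁻¹ * d) := by group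
            rw [this]
            exact mul_mem (inv_mem h3) h4
      · exact ⟨d, hd, h2⟩
    · exact ⟨c, hc, h1⟩
  by_cases h1 : c' ∈ M
  · obtain ⟨b, hb', h2⟩ := key c' h1 (H.ne_ZC hc' hd' hcd').1
    exact ⟨c', hc', b, hb', d', hd', h2, rfl⟩
  by_cases h2 : d' ∈ M
  · obtain ⟨b, hb', h3⟩ := key d' h2 (H.ne_ZC hc' hd' hcd').2.1
    exact ⟨d', hd', b, hb', c', hc', h3, H.kk_symm hc' hd'⟩
  · have h3 := rel_two hMi hc' hd' h1 h2
    obtain ⟨b, hb', h4⟩ := key _ h3 (H.ne_ZC hc' hd' hcd').2.2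
    refine ⟨c'⁻¹ * d', hMC h3, b, hb', d', hd', h4, ?_⟩
    rw [H.kml hd' hd', kk_self, mul_one]
    have h5 : kk c' d' * kk c'⁻¹ d' = 1 := by
      rw [← H.kml (inv_mem hc') hd']
      have : c' * c'⁻¹ = 1 := by group
      rw [this]; unfold kk; group
    have h6 := H.kk_sq hc' hd'
    rw [pow_two] at h6
    exact mul_left_cancel (h5.trans h6.symm)

lemma Ctx.T2 (H : Ctx G) (hb : 8 ≤ Nat.card (Om G)) {x z : G} (W : Wit x z) :
    ∃ c ∈ CC G, ∃ d ∈ CC G, kk c d = z := by
  classical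
  obtain ⟨z1, hz1, h1⟩ := exists_om_notin hb {1, z} (lt_of_le_of_lt Finset.card_le_two (by norm_num))
  simp only [Finset.mem_insert, Finset.mem_singleton, not_or] at h1
  obtain ⟨h11, h10⟩ := h1
  have e0 := om_sq W.om
  have e1 := om_sq hz1
  have h31 : z * z1 ≠ 1 := by
    intro h
    apply h10
    calc z1 = z * (z * z1) := by rw [← mul_assoc, e0, one_mul]
      _ = z := by rw [h, mul_one]
  have h30 : z * z1 ≠ z := by
    intro h
    exact h11 (mul_eq_left.mp h)
  obtain ⟨c, hc, d, hd, hcd⟩ := H.pair W hz1 h11 h10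
  obtain ⟨c', hc', d', hd', hcd'⟩ := H.pair W (mul_mem W.om hz1) h31 h30
  obtain ⟨v, hv, b, hb', b', hb'', k1, k2⟩ := H.CV hb W hc hd (by rw [hcd]; exact h11) hc' hd'
    (by rw [hcd']; exact h31)
  refine ⟨v, hv, b' * b, mul_mem hb'' hb', ?_⟩
  rw [H.kmr hv hb', k1, k2, hcd, hcd', mul_assoc, e1, mul_one]

end Pool.Agent.Helper5.Core2
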