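import Pool.Agent.Helper32.Core2.Case8b

/-! `case8b` without the (unused) hypothesis `hlast`: the proof is helper32's. -/

set_option autoImplicit false

namespace Pool.Agent.Helper5.Core2

open Subgroup Pool.Agent.Helper32.Core2

section

variable {G : Type*} [Group G]

theorem case8b' [Finite G] (h : IsC G) {y x c d z : G} (hz : z ∈ center G) (hz2 : z ^ 2 = 1)
    (hz1 : z ≠ 1) (hzx : z ∈ zpowers (x ^ 2)) (hx : x ^ 2 ∉ center G)
    (hxC : x ∈ CC G) (hcC : c ∈ CC G) (hdC : d ∈ CC G)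
    (hy : y ^ 2 = z) (hyx : (y * x) ^ 2 = z) (hyc : (y * c) ^ 2 = z) (hyd : (y * d) ^ 2 = z)
    (hA : x * c * x⁻¹ * c⁻¹ ∈ center G) (hB : x * d * x⁻¹ * d⁻¹ ∈ center G)
    (hD : c * d * c⁻¹ * d⁻¹ ∈ center G)
    (hA1 : x * c * x⁻¹ * c⁻¹ ≠ 1) (hB1 : x * d * x⁻¹ * d⁻¹ ≠ 1) (hD1 : c * d * c⁻¹ * d⁻¹ ≠ 1)
    (hAB : (x * c * x⁻¹ * c⁻¹) * (x * d * x⁻¹ * d⁻¹) ≠ 1)
    (hAD : (x * c * x⁻¹ * c⁻¹) * (c * d * c⁻¹ * d⁻¹) ≠ 1)
    (hBD : (x * d * x⁻¹ * d⁻¹) * (c * d * c⁻¹ * d⁻¹) ≠ 1)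
    (hABD : (x * c * x⁻¹ * c⁻¹) * (x * d * x⁻¹ * d⁻¹) * (c * d * c⁻¹ * d⁻¹) ≠ 1) : False := by
  have yx := inv_of_sq hy hyx
  have yc := inv_of_sq hy hyc
  have yd := inv_of_sq hy hyd
  have hxc : x * c = (x * c * x⁻¹ * c⁻¹) * (c * x) := by group
  have hxd : x * d = (x * d * x⁻¹ * d⁻¹) * (d * x) := by group
  have hcd : c * d = (c * d * c⁻¹ * d⁻¹) * (d * c) := by group
  generalize x * c * x⁻¹ * c⁻¹ = A at *
  generalize x * d * x⁻¹ * d⁻¹ = B at *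
  generalize c * d * c⁻¹ * d⁻¹ = D at *
  have hA2 := comm_sq hcC hA hxc
  have hB2 := comm_sq hdC hB hxd
  have hD2 := comm_sq hdC hD hcd
  have hz2' : z * z = 1 := by rw [← pow_two, hz2]
  have hy' : y * y = z := by rw [← pow_two, hy]
  have AB : A ≠ B := by rintro rfl; exact hAB hA2
  have AD : A ≠ D := by rintro rfl; exact hAD hA2
  have BD : B ≠ D := by rintro rfl; exact hBD hB2
  have hle : PP y x ≤ zpowers (x ^ 2) := by
    refine PP_le ?_ (mem_zpowers _) ?_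
    · rw [hy]; exact hzx
    · rw [hyx]; exact hzx
  rcases h.star y x with h1 | h1 | h1
  · exact lemmaY h hz hz2' hz1 hzx hx hcC hdC hy' yx yc yd hA hB hD hA2 hB2 hD2 hxc hxd hcd hA1 hB1
      hD1 AB AD BD hABD (fun g => hle (h1 g))
  · have h2 := hle (h1 c)
    have h3 := hle (h1 d)
    have e2 : x * c * x⁻¹ * c⁻¹ = A := by rw [hxc]; group
    have e3 : x * d * x⁻¹ * d⁻¹ = B := by rw [hxd]; group
    rw [e2] at h2
    rw [e3] at h3
    exact AB ((uniq h2 hzx hA2 hz2' hz1 hA1).trans (uniq h3 hzx hB2 hz2' hz1 hB1).symm)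
  · -- replace `y, x, c, d` by `yx, x, x⁻¹c, x⁻¹d`
    have hyx' : (y * x) * (y * x) = z := by rw [← pow_two, hyx]
    have hc' : x⁻¹ * c ∈ CC G := mul_mem (inv_mem hxC) hcC
    have hd' : x⁻¹ * d ∈ CC G := mul_mem (inv_mem hxC) hdC
    have y1 : y * x * x * (y * x)⁻¹ = x⁻¹ := by
      calc y * x * x * (y * x)⁻¹ = y * x * y⁻¹ := by group
        _ = x⁻¹ := yx
    have y2 : ∀ w, y * w * y⁻¹ = w⁻¹ → y * x * (x⁻¹ * w) * (y * x)⁻¹ = (x⁻¹ * w)⁻¹ := by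
      intro w hw
      calc y * x * (x⁻¹ * w) * (y * x)⁻¹ = (y * w * y⁻¹) * (y * x * y⁻¹)⁻¹ := by group
        _ = (x⁻¹ * w)⁻¹ := by rw [hw, yx]; group
    have r : ∀ (w S : G), S ∈ center G → x * w = S * (w * x) →
        x * (x⁻¹ * w) = S * (x⁻¹ * w * x) := by
      intro w S hS hw
      calc x * (x⁻¹ * w) = x⁻¹ * (x * w) := by group
        _ = x⁻¹ * (S * (w * x)) := by rw [hw]
        _ = S * (x⁻¹ * (w * x)) := cc' hS _ _
        _ = S * (x⁻¹ * w * x) := by group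
    have r2 : ∀ (w S : G), S ∈ center G → S * S = 1 → x * w = S * (w * x) →
        w * x⁻¹ = S * (x⁻¹ * w) := by
      intro w S hS hS2 hw
      rw [inv_pow_left hS hS2 hw, ← mul_assoc, hS2, one_mul]
    have hcd' : (x⁻¹ * c) * (x⁻¹ * d) = (A * B * D) * ((x⁻¹ * d) * (x⁻¹ * c)) := by
      calc (x⁻¹ * c) * (x⁻¹ * d) = x⁻¹ * (c * x⁻¹) * d := by group
        _ = x⁻¹ * (A * (x⁻¹ * c)) * d := by rw [r2 c A hA hA2 hxc]
        _ = A * (x⁻¹ * (x⁻¹ * c)) * d := by rw [cc' hA]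
        _ = A * (x⁻¹ * x⁻¹ * (c * d)) := by group
        _ = A * (x⁻¹ * x⁻¹ * (D * (d * c))) := by rw [hcd]
        _ = A * (D * (x⁻¹ * x⁻¹ * (d * c))) := by rw [cc' hD]
        _ = A * (D * (x⁻¹ * (x⁻¹ * d) * c)) := by group
        _ = A * (D * (x⁻¹ * (B * (B * (x⁻¹ * d))) * c)) := by
            rw [← mul_assoc B B, hB2, one_mul]
        _ = A * (D * (x⁻¹ * (B * (d * x⁻¹)) * c)) := by rw [← r2 d B hB hB2 hxd]
        _ = A * (D * (B * (x⁻¹ * (d * x⁻¹)) * c)) := by rw [cc' hB]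
        _ = A * (D * (B * (x⁻¹ * d * (x⁻¹ * c)))) := by group
        _ = A * (B * (D * (x⁻¹ * d * (x⁻¹ * c)))) := by rw [cc' hB D]
        _ = (A * B * D) * ((x⁻¹ * d) * (x⁻¹ * c)) := by group
    have hABD2 : A * B * D * (A * B * D) = 1 := comm_sq hd' (mul_mem (mul_mem hA hB) hD) hcd'
    refine lemmaY h hz hz2' hz1 hzx hx hc' hd' hyx' y1 (y2 c yc) (y2 d yd) hA hB
      (mul_mem (mul_mem hA hB) hD) hA2 hB2 hABD2 (r c A hA hxc) (r d B hB hxd) hcd' hA1 hB1 hABD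
      AB ?_ ?_ ?_ (fun g => hle (h1 g))
    · intro h2
      have h3 : B * D = 1 := by
        rw [mul_assoc] at h2
        exact mul_eq_left.mp h2.symm
      exact hBD h3
    · intro h2
      have h3 : A * D = 1 := by
        rw [mul_assoc, cc' hB, cc hB] at h2
        exact mul_eq_right.mp h2.symm
      exact hAD h3
    · intro h2
      apply hD1
      calc D = (A * A) * (B * B) * D := by rw [hA2, hB2, one_mul, one_mul]
        _ = A * (A * B) * (B * D) := by group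
        _ = A * (B * A) * (B * D) := by rw [cc hA B]
        _ = A * B * (A * B * D) := by group
        _ = 1 := h2

end

end Pool.Agent.Helper5.Core2
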