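import Pool.Agent.Helper5.Core2.C8c
import Pool.Agent.Helper5.Core2.C8p
import Pool.Agent.Helper4.Core2.Basics
import Pool.Agent.Helper15.Core2.MCTFull

set_option autoImplicit false
set_option linter.unusedSectionVars false
set_option linter.unusedVariables false

namespace Pool.Agent.Helper5.Core2

open Subgroup Pool.Agent.Helper38.Core2

universe u

variable {G : Type u} [Group G] [Finite G]

lemma exists_GN {K : Subgroup G} (hK : K ≤ center G) {z : G} (hz : z ∉ K) :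
    ∃ N : Subgroup G, ∃ _ : N.Normal, K ≤ N ∧ z ∉ N ∧ Mono (QuotientGroup.mk z : G ⧸ N) := by
  have hKn : K.Normal := by
    refine ⟨fun n hn g => ?_⟩
    have h1 := mem_center_iff.mp (hK hn) g
    have h2 : g * n * g⁻¹ = n := by rw [h1]; group
    rw [h2]; exact hn
  exact Helper4.Core2.exists_mono K hKn hz

lemma Ctx.gn_CC (H : Ctx G) {x z : G} (W : Wit x z) {N : Subgroup G} [N.Normal] (hN : z ∉ N)
    {v : G} : (QuotientGroup.mk v : G ⧸ N) ∈ CC (G ⧸ N) ↔ v ∈ CC G := by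
  constructor
  · intro h
    rw [mem_CC] at h
    have h1 := h (QuotientGroup.mk x)
    rw [← H.CC_eq W.hx, mem_cent]
    exact (comm_quot H.ce.c W.mem W.ne W.om.2 N hN v).mp h1.symm
  · intro h
    rw [mem_CC]
    intro g
    obtain ⟨g, rfl⟩ := QuotientGroup.mk_surjective g
    have h1 := congrArg (QuotientGroup.mk : G → G ⧸ N) (mem_CC.mp h g)
    simpa only [QuotientGroup.mk_mul, QuotientGroup.mk_pow] using h1

lemma Ctx.mc (H : Ctx G) {x z : G} (W : Wit x z) {N : Subgroup G} [N.Normal] (hN : z ∉ N)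
    (hM : Mono (QuotientGroup.mk z : G ⧸ N)) {c d : G} (hc : c ∈ CC G) (hd : d ∈ CC G)
    (hcd : kk c d = z) :
    (∀ g ∈ center G, (QuotientGroup.mk g : G ⧸ N) = 1 ∨
      (QuotientGroup.mk g : G ⧸ N) = QuotientGroup.mk z) ∧
    (∀ v, v ∉ CC G → ∀ s ∈ ZC G, v * s * v⁻¹ * s ∈ N) ∧
    (∀ v, v ∉ CC G → ¬ (v ^ 2 ∈ N ∧ (v * c) ^ 2 ∈ N)) := by
  have hz1 : (QuotientGroup.mk z : G ⧸ N) ≠ 1 := by
    rw [ne_eq, QuotientGroup.eq_one_iff]; exact hN
  have hx : (QuotientGroup.mk x : G ⧸ N) ^ 2 ∉ center (G ⧸ N) := by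
    intro h
    apply W.hx
    rw [mem_center_iff]
    intro g
    have h1 := mem_center_iff.mp h (QuotientGroup.mk g)
    exact (comm_quot H.ce.c W.mem W.ne W.om.2 N hN g).mp h1
  have hcd' : (QuotientGroup.mk c : G ⧸ N) * QuotientGroup.mk d ≠
      QuotientGroup.mk d * QuotientGroup.mk c := by
    intro h
    apply hN
    rw [← QuotientGroup.eq_one_iff, ← hcd]
    unfold kk
    simp only [QuotientGroup.mk_mul, QuotientGroup.mk_inv]
    rw [h]; group
  obtain ⟨-, h2, -, -, h5, h6⟩ := Helper15.Core2.Full.MC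
    (Helper4.Core2.IsC.toQuotient H.ce.c N) hM hx ((H.gn_CC W hN).mpr hc)
    ((H.gn_CC W hN).mpr hd) hcd'
  refine ⟨?_, ?_, ?_⟩
  · intro g hg
    apply h2
    rw [mem_center_iff]
    intro a
    obtain ⟨a, rfl⟩ := QuotientGroup.mk_surjective a
    have h1 := congrArg (QuotientGroup.mk : G → G ⧸ N) (mem_center_iff.mp hg a)
    simpa only [QuotientGroup.mk_mul] using h1
  · intro v hv s hs
    have h3 := h5 (QuotientGroup.mk v) (fun h => hv ((H.gn_CC W hN).mp h)) (QuotientGroup.mk s)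
      ((H.gn_CC W hN).mpr (ZC_le hs)) (by
        intro g hg
        obtain ⟨g, rfl⟩ := QuotientGroup.mk_surjective g
        have h4 := (mem_ZC.mp hs).2 g ((H.gn_CC W hN).mp hg)
        have h5 := congrArg (QuotientGroup.mk : G → G ⧸ N) h4
        simpa only [QuotientGroup.mk_mul] using h5.symm)
    rw [← QuotientGroup.eq_one_iff]
    simp only [QuotientGroup.mk_mul, QuotientGroup.mk_inv]
    rw [h3]; group
  · rintro v hv ⟨h3, h4⟩
    have h3' : (QuotientGroup.mk v : G ⧸ N) ^ 2 = 1 := by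
      have := (QuotientGroup.eq_one_iff (N := N) (v ^ 2)).mpr h3
      simpa only [QuotientGroup.mk_pow] using this
    have h4' : ((QuotientGroup.mk v : G ⧸ N) * QuotientGroup.mk c) ^ 2 = 1 := by
      have := (QuotientGroup.eq_one_iff (N := N) ((v * c) ^ 2)).mpr h4
      simpa only [QuotientGroup.mk_pow, QuotientGroup.mk_mul] using this
    have h5' := h6 (QuotientGroup.mk v) (fun h => hv ((H.gn_CC W hN).mp h))
    rw [h3', h4'] at h5'
    rcases h5' with h | h | h | h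
    · exact hz1 h.2.1.symm
    · exact hz1 h.1.symm
    · exact hz1 h.1.symm
    · exact hz1 h.1.symm

lemma notMem_zpowers_mul {t z : G} (ht : t ∈ Om G) (hz : z ∈ Om G) (ht1 : t ≠ 1) (hz1 : z ≠ 1) :
    z ∉ zpowers (t * z) := by
  intro h
  rcases zpowers_two (mul_mem ht hz).2 h with h1 | h1
  · exact hz1 h1
  · exact ht1 (mul_eq_right.mp h1.symm)

lemma Ctx.T0 (H : Ctx G) (hb : 8 ≤ Nat.card (Om G)) {x z : G} (W : Wit x z) {g : G}
    (hg : g ∈ center G) : g ∈ Om G := by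
  refine ⟨hg, ?_⟩
  by_contra h1
  obtain ⟨t, ht, ht1, ht2⟩ := exists_inv H.ce.c.two h1
  have htc : t ∈ center G := (zpowers_le.mpr (pow_mem hg 2)) ht
  have hto : t ∈ Om G := ⟨htc, ht2⟩
  obtain ⟨N, hNn, hKN, hzN, hM⟩ := exists_GN (K := zpowers (t * z))
    (zpowers_le.mpr (mul_mem htc W.om.1)) (notMem_zpowers_mul hto W.om ht1 W.ne)
  obtain ⟨c, hc, d, hd, hcd⟩ := H.T2 hb W
  obtain ⟨m1, m2, m3⟩ := H.mc W hzN hM hc hd hcd
  have hg2 : g ^ 2 ∈ N := by
    rw [← QuotientGroup.eq_one_iff, QuotientGroup.mk_pow]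
    rcases m1 g hg with h | h
    · rw [h, one_pow]
    · rw [h, ← QuotientGroup.mk_pow, W.om.2, QuotientGroup.mk_one]
  have htN : t ∈ N := (zpowers_le.mpr hg2) ht
  apply hzN
  have h3 : t * z ∈ N := hKN (mem_zpowers _)
  have h4 : z = t⁻¹ * (t * z) := by group
  rw [h4]
  exact mul_mem (inv_mem htN) h3

lemma Ctx.mm (H : Ctx G) (hb : 8 ≤ Nat.card (Om G)) {x z : G} (W : Wit x z) {v s : G}
    (hv : v ∉ CC G) (hs : s ∈ ZC G) : v * s * v⁻¹ * s = 1 := by
  by_contra h1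
  set t := v * s * v⁻¹ * s with ht
  have hto : t ∈ Om G := H.T0 hb W (H.nn_central hv (ZC_le hs))
  obtain ⟨N, hNn, hKN, hzN, hM⟩ := exists_GN (K := zpowers (t * z))
    (zpowers_le.mpr (mul_mem hto.1 W.om.1)) (notMem_zpowers_mul hto W.om h1 W.ne)
  obtain ⟨c, hc, d, hd, hcd⟩ := H.T2 hb W
  obtain ⟨m1, m2, m3⟩ := H.mc W hzN hM hc hd hcd
  have htN : t ∈ N := m2 v hv s hs
  apply hzN
  have h3 : t * z ∈ N := hKN (mem_zpowers _)
  have h4 : z = t⁻¹ * (t * z) := by group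
  rw [h4]
  exact mul_mem (inv_mem htN) h3

lemma Ctx.sq_om (H : Ctx G) (hb : 8 ≤ Nat.card (Om G)) {x z : G} (W : Wit x z) {v : G}
    (hv : v ∉ CC G) : v ^ 2 ∈ Om G := H.T0 hb W (H.sq_central hv)

lemma Ctx.T1 (H : Ctx G) (hb : 8 ≤ Nat.card (Om G)) {x z : G} (W : Wit x z) {c d v : G}
    (hc : c ∈ CC G) (hd : d ∈ CC G) (hcd : kk c d = z) (hv : v ∉ CC G) :
    v ^ 2 = z ∨ (v * c) ^ 2 = z ∨ v ^ 2 * (v * c) ^ 2 = z := by
  have ha := H.sq_om hb W hv
  have hb' := H.sq_om hb W (H.notMem_mul hv hc)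
  by_contra hcon
  have hz : z ∉ Helper32.Core2.Four (v ^ 2) ((v * c) ^ 2) (om_sq ha) (om_sq hb')
      (om_comm ha _).symm := by
    rw [Helper32.Core2.mem_Four]
    rintro (h | h | h | h)
    · exact W.ne h
    · exact hcon (Or.inl h.symm)
    · exact hcon (Or.inr (Or.inl h.symm))
    · exact hcon (Or.inr (Or.inr h.symm))
  obtain ⟨N, hNn, hKN, hzN, hM⟩ := exists_GN (Helper32.Core2.Four_le_center ha.1 hb'.1) hz
  obtain ⟨m1, m2, m3⟩ := H.mc W hzN hM hc hd hcd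
  exact m3 v hv ⟨hKN (Or.inr (Or.inl rfl)), hKN (Or.inr (Or.inr (Or.inl rfl)))⟩

lemma Ctx.N2_eq (H : Ctx G) (hb : 8 ≤ Nat.card (Om G)) {x z : G} (W : Wit x z) {v g : G}
    (hv : v ∉ CC G) : v ^ 2 * (v * g) ^ 2 = v * g * v⁻¹ * g := by
  rw [H.sq_mul hv, ← mul_assoc, om_sq (H.sq_om hb W hv), one_mul]

lemma Ctx.N2_mul (H : Ctx G) (hb : 8 ≤ Nat.card (Om G)) {x z : G} (W : Wit x z) {v b g : G}
    (hv : v ∉ CC G) (hb' : b ∈ CC G) (hg : g ∈ CC G) :
    (v * b) ^ 2 * ((v * b) * g) ^ 2 = kk b g * (v ^ 2 * (v * g) ^ 2) := by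
  rw [H.N2_eq hb W (H.notMem_mul hv hb'), H.N2_eq hb W hv]
  have h1 := H.kk_om hb' hg
  calc v * b * g * (v * b)⁻¹ * g = v * (kk b g * g) * v⁻¹ * g := by unfold kk; group
    _ = (v * kk b g) * g * v⁻¹ * g := by group
    _ = (kk b g * v) * g * v⁻¹ * g := by rw [om_comm h1]
    _ = kk b g * (v * g * v⁻¹ * g) := by group

lemma Ctx.T5 (H : Ctx G) (hb : 8 ≤ Nat.card (Om G)) {x z x' z' : G} (W : Wit x z)
    (W' : Wit x' z') : z = z' := by
  by_contra hne
  obtain ⟨c, hc, d, hd, hcd⟩ := H.T2 hb W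
  obtain ⟨c', hc', d', hd', hcd'⟩ := H.T2 hb W'
  obtain ⟨v, hv, b, hb1, b', hb2, k1, k2⟩ := H.CV hb W hc hd (by rw [hcd]; exact W.ne) hc' hd'
    (by rw [hcd']; exact W'.ne)
  rw [hcd] at k1
  rw [hcd'] at k2
  obtain ⟨u, hu⟩ := H.exists_notMem
  have key : ∀ w : G, w ∉ CC G → w ^ 2 * (w * v) ^ 2 = z ∨ w ^ 2 * (w * v) ^ 2 = z' ∨
      w ^ 2 * (w * v) ^ 2 = z * z' := by
    intro w hw
    rcases H.T1 hb W hv hb1 k1 hw with h1 | h1 | h1
    · rcases H.T1 hb W' hv hb2 k2 hw with h2 | h2 | h2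
      · exact absurd (h1.symm.trans h2) hne
      · right; right; rw [h1, h2]
      · right; left; exact h2
    · rcases H.T1 hb W' hv hb2 k2 hw with h2 | h2 | h2
      · right; right; rw [h1, h2]; exact om_comm W.om z'
      · exact absurd (h1.symm.trans h2) hne
      · right; left; exact h2
    · left; exact h1
  have e1 := om_sq W.om
  have e2 := om_sq W'.om
  have key2 : ∀ w : G, w ∉ CC G → w ^ 2 * (w * v) ^ 2 = z * z' := by
    intro w hw
    have h1 := H.N2_mul hb W hw hb1 hv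
    have h2 := H.N2_mul hb W hw hb2 hv
    rw [H.kk_symm hv hb1, k1] at h1
    rw [H.kk_symm hv hb2, k2] at h2
    rcases key w hw with h3 | h3 | h3
    · exfalso
      rw [h3, e1] at h1
      rcases key _ (H.notMem_mul hw hb1) with h4 | h4 | h4
      · exact W.ne (h4.symm.trans h1)
      · exact W'.ne (h4.symm.trans h1)
      · apply hne
        have h5 : z * z' = 1 := h4.symm.trans h1
        calc z = z * (z' * z') := by rw [e2, mul_one]
          _ = z' := by rw [← mul_assoc, h5, one_mul]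
    · exfalso
      rw [h3, e2] at h2
      rcases key _ (H.notMem_mul hw hb2) with h4 | h4 | h4
      · exact W.ne (h4.symm.trans h2)
      · exact W'.ne (h4.symm.trans h2)
      · apply hne
        have h5 : z * z' = 1 := h4.symm.trans h2
        calc z = z * (z' * z') := by rw [e2, mul_one]
          _ = z' := by rw [← mul_assoc, h5, one_mul]
    · exact h3
  have h1 := H.N2_mul hb W hu hb1 hv
  rw [H.kk_symm hv hb1, k1, key2 u hu, key2 _ (H.notMem_mul hu hb1), ← mul_assoc, e1, one_mul] at h1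
  exact W.ne (mul_eq_right.mp h1)

/-- any non-central square has `z` in its cyclic group -/
lemma Ctx.T5' (H : Ctx G) (hb : 8 ≤ Nat.card (Om G)) {x z x' : G} (W : Wit x z)
    (hx' : x' ^ 2 ∉ center G) : z ∈ zpowers (x' ^ 2) := by
  obtain ⟨t, ht, ht1, hto⟩ := exists_om H.ce.c (g := x') (fun h => hx' (h ▸ one_mem _))
  have W' : Wit x' t := ⟨hx', ht, ht1, hto⟩
  rw [H.T5 hb W W']
  exact ht

end Pool.Agent.Helper5.Core2
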