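import Pool.Agent.Helper5.Core2.C8d

set_option autoImplicit false
set_option linter.unusedSectionVars false
set_option linter.unusedVariables false

namespace Pool.Agent.Helper5.Core2

open Subgroup Pool.Agent.Helper38.Core2

universe u

variable {G : Type u} [Group G] [Finite G]

lemma three_eq {z p q r : G} (hz1 : z ≠ 1) (hp : p ∈ Om G) (hz : z ∈ Om G)
    (pq : p = z ∨ q = z ∨ p * q = z) (pr : p = z ∨ r = z ∨ p * r = z)
    (qr : q = z ∨ r = z ∨ q * r = z) : p = z ∨ q = z ∨ r = z := by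
  by_contra hcon
  push Not at hcon
  obtain ⟨h1, h2, h3⟩ := hcon
  have a1 := (pq.resolve_left h1).resolve_left h2
  have a2 := (pr.resolve_left h1).resolve_left h3
  have a3 := (qr.resolve_left h2).resolve_left h3
  have ep := om_sq hp
  have ez := om_sq hz
  have b1 : q = p * z := by rw [← a1, ← mul_assoc, ep, one_mul]
  have b2 : r = p * z := by rw [← a2, ← mul_assoc, ep, one_mul]
  apply hz1
  rw [← a3, b1, b2]
  exact om_sq (mul_mem hp hz)

/-- at least two of the four squares are `z` -/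
lemma Ctx.two_of_four (H : Ctx G) (hb : 8 ≤ Nat.card (Om G)) {x z : G} (W : Wit x z) {c d v : G}
    (hc : c ∈ CC G) (hd : d ∈ CC G) (hcd : kk c d = z) (hv : v ∉ CC G) :
    (v ^ 2 = z ∧ (v * c) ^ 2 = z) ∨ (v ^ 2 = z ∧ (v * d) ^ 2 = z) ∨
    (v ^ 2 = z ∧ (v * (c * d)) ^ 2 = z) ∨ ((v * c) ^ 2 = z ∧ (v * d) ^ 2 = z) ∨
    ((v * c) ^ 2 = z ∧ (v * (c * d)) ^ 2 = z) ∨ ((v * d) ^ 2 = z ∧ (v * (c * d)) ^ 2 = z) := by
  have hcd' := mul_mem hc hd
  have hvc := H.notMem_mul hv hc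
  have hvd := H.notMem_mul hv hd
  have o1 := H.sq_om hb W hv
  have o2 := H.sq_om hb W hvc
  have kinv : ∀ {a b : G}, a ∈ CC G → b ∈ CC G → kk a⁻¹ b = kk a b := by
    intro a b ha hb'
    have h5 : kk a b * kk a⁻¹ b = 1 := by
      rw [← H.kml (inv_mem ha) hb']
      have : a * a⁻¹ = 1 := by group
      rw [this]; unfold kk; group
    have h6 := H.kk_sq ha hb'
    rw [pow_two] at h6
    exact mul_left_cancel (h5.trans h6.symm)
  have hdc : kk d c = z := by rw [H.kk_symm hc hd, hcd]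
  have p12 := H.T1 hb W hc hd hcd hv
  have p13 := H.T1 hb W hd hc hdc hv
  have p14 := H.T1 hb W hcd' hd (by rw [H.kml hd hd, kk_self, mul_one, hcd]) hv
  have p23 := H.T1 hb W (mul_mem (inv_mem hc) hd) hc (by
    rw [H.kml hd hc, kinv hc hc, kk_self, one_mul, hdc]) hvc
  have p24 := H.T1 hb W hd hc hdc hvc
  have p34 := H.T1 hb W (c := d⁻¹ * c * d) (mul_mem (mul_mem (inv_mem hd) hc) hd) hd (by
    rw [H.kml hd hd, H.kml hc hd, kk_self, mul_one, kinv hd hd, kk_self, one_mul, hcd]) hvd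
  rw [show v * c * (c⁻¹ * d) = v * d by group] at p23
  rw [mul_assoc v c d] at p24
  rw [show v * d * (d⁻¹ * c * d) = v * (c * d) by group] at p34
  have t1 := three_eq W.ne o1 W.om p12 p13 p23
  have t2 := three_eq W.ne o1 W.om p12 p14 p24
  have t3 := three_eq W.ne o1 W.om p13 p14 p34
  have t4 := three_eq W.ne o2 W.om p23 p24 p34
  clear p12 p13 p14 p23 p24 p34 hdc hcd kinv
  rcases t1 with t1 | t1 | t1
  · rcases t4 with t4 | t4 | t4
    · exact Or.inl ⟨t1, t4⟩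
    · exact Or.inr (Or.inl ⟨t1, t4⟩)
    · exact Or.inr (Or.inr (Or.inl ⟨t1, t4⟩))
  · rcases t3 with t3 | t3 | t3
    · exact Or.inl ⟨t3, t1⟩
    · exact Or.inr (Or.inr (Or.inr (Or.inl ⟨t1, t3⟩)))
    · exact Or.inr (Or.inr (Or.inr (Or.inr (Or.inl ⟨t1, t3⟩))))
  · rcases t2 with t2 | t2 | t2
    · exact Or.inr (Or.inl ⟨t2, t1⟩)
    · exact Or.inr (Or.inr (Or.inr (Or.inl ⟨t2, t1⟩)))
    · exact Or.inr (Or.inr (Or.inr (Or.inr (Or.inr ⟨t1, t2⟩))))

lemma Ctx.NC3 (H : Ctx G) (hb : 8 ≤ Nat.card (Om G)) {x z : G} (W : Wit x z) {a b w : G}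
    (ha : a ∈ CC G) (hb' : b ∈ CC G) (hw : w ∈ CC G) (h1 : kk w a ≠ 1) (h2 : kk w b ≠ 1)
    (h3 : kk w a ≠ kk w b) : kk a b ≠ 1 := by
  intro h
  rcases H.NC hb W ha hb' h with h4 | h4 | h4
  · exact (H.ne_ZC hw ha h1).2.1 h4
  · exact (H.ne_ZC hw hb' h2).2.1 h4
  · apply h3
    have h5 := (H.mem_ZC_iff (mul_mem (inv_mem ha) hb')).mp h4 w hw
    have h6 : b = a * (a⁻¹ * b) := by group
    rw [h6, H.kmr hw (mul_mem (inv_mem ha) hb'), H.kk_symm (mul_mem (inv_mem ha) hb') hw, h5,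
      mul_one]

/-- the data used by `case8b` -/
structure Dat8 (z y x c d : G) : Prop where
  hy : y ∉ CC G
  hx : x ∈ CC G
  hc : c ∈ CC G
  hd : d ∈ CC G
  y2 : y ^ 2 = z
  yx : (y * x) ^ 2 = z
  yc : (y * c) ^ 2 = z
  yd : (y * d) ^ 2 = z
  A1 : kk x c ≠ 1
  B1 : kk x d ≠ 1
  D1 : kk c d ≠ 1
  AB : kk x c * kk x d ≠ 1
  AD : kk x c * kk c d ≠ 1
  BD : kk x d * kk c d ≠ 1
  ABD : kk x c * kk x d * kk c d ≠ 1

lemma Ctx.T3b (H : Ctx G) (hb : 8 ≤ Nat.card (Om G)) {x0 z : G} (W : Wit x0 z) {y x e d : G}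
    (hy : y ∉ CC G) (hx : x ∈ CC G) (he : e ∈ CC G) (hd : d ∈ CC G)
    (y2 : y ^ 2 = z) (yx : (y * x) ^ 2 = z) (ye : (y * e) ^ 2 = z) (yed : (y * (e * d)) ^ 2 = z)
    (h1 : kk x e ≠ 1) (h2 : kk x e ≠ z) (h3 : kk x d = z) : Dat8 z y x e (e * d) := by
  have ez := om_sq W.om
  have ea := om_sq (H.kk_om hx he)
  have oa := H.kk_om hx he
  have od := H.kk_om he hd
  have k1 : kk x (e * d) = kk x e * z := by rw [H.kmr hx hd, h3]
  have k2 : kk e (e * d) = kk e d := by rw [H.kmr he hd, kk_self, one_mul]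
  have hz3 : kk x d ≠ 1 := by rw [h3]; exact W.ne
  have d1 : kk e d ≠ 1 := H.NC3 hb W he hd hx h1 hz3 (by rw [h3]; exact h2)
  have kxe : kk e x = kk x e := H.kk_symm hx he
  have d2 : kk x e * kk e d ≠ 1 := by
    have := H.NC3 hb W he (mul_mem hx hd) hx h1 (by rw [H.kmr hx hd, kk_self, one_mul]; exact hz3)
      (by rw [H.kmr hx hd, kk_self, one_mul, h3]; exact h2)
    rwa [H.kmr he hd, kxe] at this
  have d3 : z * kk e d ≠ 1 := by
    have := H.NC3 hb W (mul_mem hx he) hd hx (by rw [H.kmr hx he, kk_self, one_mul]; exact h1) hz3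
      (by rw [H.kmr hx he, kk_self, one_mul, h3]; exact h2)
    rwa [H.kml he hd, h3] at this
  have d4 : kk x e * z * kk e d ≠ 1 := by
    have := H.NC3 hb W (mul_mem hx he) (mul_mem hx hd) hx
      (by rw [H.kmr hx he, kk_self, one_mul]; exact h1)
      (by rw [H.kmr hx hd, kk_self, one_mul]; exact hz3)
      (by rw [H.kmr hx he, H.kmr hx hd, kk_self, one_mul, one_mul, h3]; exact h2)
    rw [H.kml he (mul_mem hx hd), H.kmr hx hd, H.kmr he hd, kk_self, one_mul, h3, kxe] at this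
    intro h
    apply this
    rw [← h]
    calc z * (kk x e * kk e d) = (z * kk x e) * kk e d := by group
      _ = (kk x e * z) * kk e d := by rw [om_comm oa z]
  refine ⟨hy, hx, he, mul_mem he hd, y2, yx, ye, yed, h1, ?_, ?_, ?_, ?_, ?_, ?_⟩
  · rw [k1]
    intro h
    apply h2
    calc kk x e = kk x e * (z * z) := by rw [ez, mul_one]
      _ = z := by rw [← mul_assoc, h, one_mul]
  · rw [k2]; exact d1
  · rw [k1, ← mul_assoc, ea, one_mul]; exact W.ne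
  · rw [k2]; exact d2
  · rw [k1, k2]; exact d4
  · rw [k1, k2, ← mul_assoc (kk x e), ea, one_mul]; exact d3

lemma Ctx.T3a (H : Ctx G) (hb : 8 ≤ Nat.card (Om G)) {x0 z : G} (W : Wit x0 z) :
    ∃ y, y ∉ CC G ∧ ∃ x ∈ CC G, ∃ d ∈ CC G, kk x d = z ∧ y ^ 2 = z ∧ (y * x) ^ 2 = z := by
  obtain ⟨c, hc, d, hd, hcd⟩ := H.T2 hb W
  obtain ⟨v, hv⟩ := H.exists_notMem
  have hvc := H.notMem_mul hv hc
  have hvd := H.notMem_mul hv hd
  have hdc : kk d c = z := by rw [H.kk_symm hc hd, hcd]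
  have kinv : ∀ {a : G}, a ∈ CC G → kk a⁻¹ a = 1 := by
    intro a ha
    unfold kk; group
  rcases H.two_of_four hb W hc hd hcd hv with h | h | h | h | h | h
  · exact ⟨v, hv, c, hc, d, hd, hcd, h.1, h.2⟩
  · exact ⟨v, hv, d, hd, c, hc, hdc, h.1, h.2⟩
  · exact ⟨v, hv, c * d, mul_mem hc hd, d, hd, by rw [H.kml hd hd, kk_self, mul_one, hcd],
      h.1, h.2⟩
  · refine ⟨v * c, hvc, c⁻¹ * d, mul_mem (inv_mem hc) hd, c, hc, ?_, h.1, ?_⟩
    · rw [H.kml hd hc, kinv hc, one_mul, hdc]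
    · rw [show v * c * (c⁻¹ * d) = v * d by group]; exact h.2
  · refine ⟨v * c, hvc, d, hd, c, hc, hdc, h.1, ?_⟩
    rw [mul_assoc]; exact h.2
  · refine ⟨v * d, hvd, d⁻¹ * c * d, mul_mem (mul_mem (inv_mem hd) hc) hd, d, hd, ?_, h.1, ?_⟩
    · rw [H.kml hd hd, H.kml hc hd, kk_self, mul_one, kinv hd, one_mul, hcd]
    · rw [show v * d * (d⁻¹ * c * d) = v * (c * d) by group]; exact h.2

lemma Ctx.T3 (H : Ctx G) (hb : 8 ≤ Nat.card (Om G)) {x0 z : G} (W : Wit x0 z) :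
    ∃ y x c d : G, Dat8 z y x c d := by
  obtain ⟨y, hy, x, hx, d, hd, hxd, y2, yx⟩ := H.T3a hb W
  have hz3 : kk x d ≠ 1 := by rw [hxd]; exact W.ne
  obtain ⟨e, he, he1, hez⟩ := H.G3 hb W hx (H.ne_ZC hx hd hz3).1 W.om
  have ez := om_sq W.om
  have oe := H.kk_om he hx
  have kxe : kk x e = kk e x := H.kk_symm he hx
  have h1 : kk x e ≠ 1 := by rw [kxe]; exact he1
  have h2 : kk x e ≠ z := by rw [kxe]; exact hez
  have hye := H.notMem_mul hy he
  have hyed := H.notMem_mul hye hd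
  have hN : y ^ 2 * (y * x) ^ 2 = 1 := by rw [y2, yx, ez]
  have n1 : ¬ ((y * e) ^ 2 = z ∧ (y * e * x) ^ 2 = z) := by
    rintro ⟨a1, a2⟩
    have := H.N2_mul hb W hy he hx
    rw [a1, a2, hN, ez, mul_one] at this
    exact he1 this.symm
  have hsame : (y * e * (x * d)) ^ 2 = (y * e * d * x) ^ 2 := by
    have h5 : x * d = z * (d * x) := by rw [← hxd]; unfold kk; group
    have h6 : y * e * (x * d) = z * (y * e * d * x) := by
      rw [h5]
      calc y * e * (z * (d * x)) = (y * e * z) * (d * x) := by group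
        _ = (z * (y * e)) * (d * x) := by rw [om_comm W.om]
        _ = z * (y * e * d * x) := by group
    rw [h6, pow_two]
    calc z * (y * e * d * x) * (z * (y * e * d * x))
        = z * ((y * e * d * x) * z) * (y * e * d * x) := by group
      _ = z * (z * (y * e * d * x)) * (y * e * d * x) := by rw [om_comm W.om]
      _ = (z * z) * (y * e * d * x) * (y * e * d * x) := by group
      _ = (y * e * d * x) ^ 2 := by rw [ez, one_mul, pow_two]
  have n2 : ¬ ((y * e * d) ^ 2 = z ∧ (y * e * (x * d)) ^ 2 = z) := by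
    rintro ⟨a1, a2⟩
    rw [hsame] at a2
    have := H.N2_mul hb W hy (mul_mem he hd) hx
    rw [← mul_assoc, a1, a2, hN, ez, mul_one, H.kml hd hx, H.kk_symm hx hd, hxd] at this
    apply hez
    calc kk e x = kk e x * (z * z) := by rw [ez, mul_one]
      _ = z := by rw [← mul_assoc, ← this, one_mul]
  have key : ((y * e) ^ 2 = z ∨ (y * e * x) ^ 2 = z) ∧
      ((y * e * d) ^ 2 = z ∨ (y * e * (x * d)) ^ 2 = z) := by
    rcases H.two_of_four hb W hx hd hxd hye with h | h | h | h | h | h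
    · exact absurd h n1
    · exact ⟨Or.inl h.1, Or.inl h.2⟩
    · exact ⟨Or.inl h.1, Or.inr h.2⟩
    · exact ⟨Or.inr h.1, Or.inl h.2⟩
    · exact ⟨Or.inr h.1, Or.inr h.2⟩
    · exact absurd h n2
  obtain ⟨ka | ka, kb | kb⟩ := key
  · refine ⟨y, x, e, e * d, H.T3b hb W hy hx he hd y2 yx ka ?_ h1 h2 hxd⟩
    rw [← mul_assoc]; exact kb
  · refine ⟨y, x, e, e * (x * d), H.T3b hb W hy hx he (mul_mem hx hd) y2 yx ka ?_ h1 h2 ?_⟩
    · rw [← mul_assoc]; exact kb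
    · rw [H.kmr hx hd, kk_self, one_mul, hxd]
  · refine ⟨y, x, e * x, e * x * (x⁻¹ * d), H.T3b hb W hy hx (mul_mem he hx)
      (mul_mem (inv_mem hx) hd) y2 yx ?_ ?_ ?_ ?_ ?_⟩
    · rw [← mul_assoc]; exact ka
    · rw [show y * (e * x * (x⁻¹ * d)) = y * e * d by group]; exact kb
    · rw [H.kmr hx hx, kk_self, mul_one]; exact h1
    · rw [H.kmr hx hx, kk_self, mul_one]; exact h2
    · rw [H.kmr hx hd, hxd]
      have : kk x x⁻¹ = 1 := by unfold kk; group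
      rw [this, one_mul]
  · refine ⟨y, x, e * x, e * x * d, H.T3b hb W hy hx (mul_mem he hx) hd y2 yx ?_ ?_ ?_ ?_ hxd⟩
    · rw [← mul_assoc]; exact ka
    · rw [show y * (e * x * d) = y * e * (x * d) by group]; exact kb
    · rw [H.kmr hx hx, kk_self, mul_one]; exact h1
    · rw [H.kmr hx hx, kk_self, mul_one]; exact h2

lemma Ctx.gen (H : Ctx G) (hb : 8 ≤ Nat.card (Om G)) {x0 z : G} (W : Wit x0 z) {x c d : G}
    (hx : x ∈ CC G) (hc : c ∈ CC G) (hd : d ∈ CC G) (h1 : kk x c ≠ 1) (h2 : kk x d ≠ 1)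
    (h3 : kk x c * kk x d ≠ 1) (S : Subgroup G) (hZ : ZC G ≤ S) (hxS : x ∈ S) (hcS : c ∈ S)
    (hdS : d ∈ S) : CC G ≤ S := by
  obtain ⟨M, hZM, hxM, hcM, hMC, hMi, hM, hMmin⟩ := H.M1 hb W hx hc h1
  have hM1 : M ≤ S ⊓ CC G := le_inf (hMmin S hZ hxS hcS) hMC
  have hdM : d ∉ M := by
    intro h
    rcases (hM d h).1 with h4 | h4
    · exact h2 (by rw [H.kk_symm hd hx, h4])
    · apply h3
      rw [H.kk_symm hd hx, h4]
      exact om_sq (H.kk_om hx hc)
  have h5 := relIndex_mul_relIndex M (S ⊓ CC G) (CC G) hM1 inf_le_right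
  have h6 := relIndex_two_le (A := M) (K := S ⊓ CC G) (a := d) ⟨hdS, hd⟩ hdM
  have h7 := relIndex_pos (S ⊓ CC G) (CC G)
  have h8 : (S ⊓ CC G).relIndex (CC G) = 1 := by
    by_contra h9
    have h10 : 2 * 2 ≤ M.relIndex (S ⊓ CC G) * (S ⊓ CC G).relIndex (CC G) :=
      Nat.mul_le_mul h6 (by omega)
    omega
  rw [relIndex_eq_one] at h8
  exact fun g hg => (h8 hg).1

/-- the subgroup of elements of `CC` with central square -/
def Ctx.SS (H : Ctx G) : Subgroup G where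
  carrier := {g | g ∈ CC G ∧ g ^ 2 ∈ center G}
  mul_mem' := by
    rintro a b ⟨ha, ha2⟩ ⟨hb, hb2⟩
    refine ⟨mul_mem ha hb, ?_⟩
    have h1 : (a * b) ^ 2 = a ^ 2 * kk a⁻¹ b * b ^ 2 := by
      unfold kk; simp only [pow_two]; group
    rw [h1]
    exact mul_mem (mul_mem ha2 (H.kk_central (inv_mem ha) hb)) hb2
  one_mem' := ⟨one_mem _, by rw [one_pow]; exact one_mem _⟩
  inv_mem' := by
    rintro a ⟨ha, ha2⟩
    exact ⟨inv_mem ha, by rw [inv_pow]; exact inv_mem ha2⟩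

lemma Ctx.final (H : Ctx G) (hb : 8 ≤ Nat.card (Om G)) {x0 z : G} (W : Wit x0 z) {y x c d : G}
    (D : Dat8 z y x c d) (hx : x ^ 2 ∉ center G) : False :=
  case8b' H.ce.c W.om.1 W.om.2 W.ne (H.T5' hb W hx) hx D.hx D.hc D.hd D.y2 D.yx D.yc D.yd
    (H.kk_central D.hx D.hc) (H.kk_central D.hx D.hd) (H.kk_central D.hc D.hd)
    D.A1 D.B1 D.D1 D.AB D.AD D.BD D.ABD

theorem Ctx.case8 (H : Ctx G) (hb : 8 ≤ Nat.card (Om G)) {x0 z : G} (W : Wit x0 z) : False := by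
  obtain ⟨y, x, c, d, D⟩ := H.T3 hb W
  have oA := H.kk_om D.hx D.hc
  have oB := H.kk_om D.hx D.hd
  have oD := H.kk_om D.hc D.hd
  have kcx : kk c x = kk x c := H.kk_symm D.hx D.hc
  have kdx : kk d x = kk x d := H.kk_symm D.hx D.hd
  have kdc : kk d c = kk c d := H.kk_symm D.hc D.hd
  by_cases hx : x ^ 2 ∈ center G
  swap
  · exact H.final hb W D hx
  by_cases hc : c ^ 2 ∈ center G
  swap
  · refine H.final hb W (y := y) (x := c) (c := x) (d := d) ?_ hc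
    refine ⟨D.hy, D.hc, D.hx, D.hd, D.y2, D.yc, D.yx, D.yd, ?_, D.D1, D.B1, ?_, ?_, ?_, ?_⟩
    · rw [kcx]; exact D.A1
    · rw [kcx]; exact D.AD
    · rw [kcx]; exact D.AB
    · rw [om_comm oB]; exact D.BD
    · rw [kcx, mul_assoc, om_comm oB, ← mul_assoc]; exact D.ABD
  by_cases hd : d ^ 2 ∈ center G
  swap
  · refine H.final hb W (y := y) (x := d) (c := x) (d := c) ?_ hd
    refine ⟨D.hy, D.hd, D.hx, D.hc, D.y2, D.yd, D.yx, D.yc, ?_, ?_, D.A1, ?_, ?_, ?_, ?_⟩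
    · rw [kdx]; exact D.B1
    · rw [kdc]; exact D.D1
    · rw [kdx, kdc]; exact D.BD
    · rw [kdx, om_comm oA]; exact D.AB
    · rw [kdc, om_comm oA]; exact D.AD
    · rw [kdx, kdc, om_comm oA, ← mul_assoc]; exact D.ABD
  by_cases hs : ∀ s ∈ ZC G, s ^ 2 ∈ center G
  · have h1 := H.gen hb W D.hx D.hc D.hd D.A1 D.B1 D.AB H.SS
      (fun s hs' => ⟨ZC_le hs', hs s hs'⟩) ⟨D.hx, hx⟩ ⟨D.hc, hc⟩ ⟨D.hd, hd⟩
    exact W.hx (h1 (H.mem_of_sq W.hx)).2
  · push Not at hs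
    obtain ⟨s, hs, hs2⟩ := hs
    have hsC := ZC_le hs
    have ks : ∀ g ∈ CC G, kk (x * s) g = kk x g := by
      intro g hg
      rw [H.kml hsC hg, (H.mem_ZC_iff hsC).mp hs g hg, mul_one]
    have hxs : s * x = x * s := ((mem_ZC.mp hs).2 x D.hx).symm
    have hsq : (x * s) ^ 2 = x ^ 2 * s ^ 2 := (show Commute x s from hxs.symm).mul_pow 2
    have hyxs : (y * (x * s)) ^ 2 = z := by
      rw [← D.yx, H.sq_mul D.hy, H.sq_mul D.hy]
      congr 1
      have hm := H.mm hb W D.hy hs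
      have h7 := mem_center_iff.mp (H.nn_central D.hy D.hx)
      calc y * (x * s) * y⁻¹ * (x * s) = (y * x * y⁻¹) * (y * s * y⁻¹) * (s * x) := by
            rw [hxs]; group
        _ = (y * x * y⁻¹) * (y * s * y⁻¹ * s) * x := by group
        _ = y * x * y⁻¹ * x := by rw [hm, mul_one]
    refine H.final hb W (y := y) (x := x * s) (c := c) (d := d) ?_ ?_
    · refine ⟨D.hy, mul_mem D.hx hsC, D.hc, D.hd, D.y2, hyxs, D.yc, D.yd, ?_, ?_, D.D1, ?_, ?_,
        ?_, ?_⟩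
      · rw [ks c D.hc]; exact D.A1
      · rw [ks d D.hd]; exact D.B1
      · rw [ks c D.hc, ks d D.hd]; exact D.AB
      · rw [ks c D.hc]; exact D.AD
      · rw [ks d D.hd]; exact D.BD
      · rw [ks c D.hc, ks d D.hd]; exact D.ABD
    · rw [hsq]
      intro h
      apply hs2
      have := mul_mem (inv_mem hx) h
      rwa [inv_mul_cancel_left] at this

end Pool.Agent.Helper5.Core2
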