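import Pool.Agent.Helper5.Core2.FiveCore

set_option autoImplicit false
set_option linter.unusedSimpArgs false

namespace Pool.Agent.Helper5.Core2

open Module

section Main

variable {V T : Type*} [AddCommGroup V] [Module (ZMod 2) V] [AddCommGroup T] [Module (ZMod 2) T]
  {q : V → T} {β : V →ₗ[ZMod 2] V →ₗ[ZMod 2] T}

/-- Reduction to codes. -/
lemma false_of_conf (h : IsQ q β) {n c1 c2 c3 y : V} {t1 t2 t3 : T}
    (surj : ∀ t, ∃ m < 8, dec t1 t2 t3 m = t) (inj : ∀ m < 8, dec t1 t2 t3 m = 0 → m = 0)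
    (h12 : β c1 c2 = t1) (h13 : β c1 c3 = t2) (h23 : β c2 c3 = t3)
    (hn1 : β n c1 = 0) (hn2 : β n c2 = 0) (hn3 : β n c3 = 0) (hny : β n y = t1) : False := by
  obtain ⟨p, lp, dp⟩ := surj (q n)
  obtain ⟨q1, lq1, dq1⟩ := surj (q c1)
  obtain ⟨q2, lq2, dq2⟩ := surj (q c2)
  obtain ⟨q3, lq3, dq3⟩ := surj (q c3)
  obtain ⟨f, lf, df⟩ := surj (q y)
  obtain ⟨l1, ll1, dl1⟩ := surj (β c1 y)
  obtain ⟨l2, ll2, dl2⟩ := surj (β c2 y)
  obtain ⟨l3, ll3, dl3⟩ := surj (β c3 y)
  by_cases hp : p = 1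
  · subst hp
    rw [dec_one] at dp
    have hnn := h.alt n
    have e1 := h.symm c1 n
    have e2 := h.symm c2 n
    have e3 := h.symm c3 n
    rw [hn1] at e1
    rw [hn2] at e2
    rw [hn3] at e3
    have tb : ∀ m : ℕ, (m ^^^ sel (m.testBit 0) 1).testBit 0 = false := by
      intro m
      rw [Nat.testBit_xor]
      cases m.testBit 0 <;> simp [sel]
    have C : Conf q β n (c1 + if q1.testBit 0 then n else 0) (c2 + if q2.testBit 0 then n else 0)
        (c3 + if q3.testBit 0 then n else 0) y t1 t2 t3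
        ⟨1, q1 ^^^ sel (q1.testBit 0) 1, q2 ^^^ sel (q2.testBit 0) 1, q3 ^^^ sel (q3.testBit 0) 1,
          f, l1 ^^^ sel (q1.testBit 0) 1, l2 ^^^ sel (q2.testBit 0) 1,
          l3 ^^^ sel (q3.testBit 0) 1⟩ := by
      refine ⟨h, surj, inj, ?_, ?_, ?_, ?_, ?_, ?_, hny, by norm_num,
        xor_lt_8 lq1 (sel_lt_8 (by norm_num)), xor_lt_8 lq2 (sel_lt_8 (by norm_num)),
        xor_lt_8 lq3 (sel_lt_8 (by norm_num)), lf,
        xor_lt_8 ll1 (sel_lt_8 (by norm_num)), xor_lt_8 ll2 (sel_lt_8 (by norm_num)),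
        xor_lt_8 ll3 (sel_lt_8 (by norm_num)), by rw [dec_one]; exact dp, ?_, ?_, ?_, df,
        ?_, ?_, ?_⟩
      · cases q1.testBit 0 <;> cases q2.testBit 0 <;> simp [h12, hn1, hn2, e1, e2, hnn]
      · cases q1.testBit 0 <;> cases q3.testBit 0 <;> simp [h13, hn1, hn3, e1, e3, hnn]
      · cases q2.testBit 0 <;> cases q3.testBit 0 <;> simp [h23, hn2, hn3, e2, e3, hnn]
      · cases q1.testBit 0 <;> simp [hn1, hnn]
      · cases q2.testBit 0 <;> simp [hn2, hnn]
      · cases q3.testBit 0 <;> simp [hn3, hnn]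
      · rw [dec_xor, dec_sel, dec_one, dq1]
        cases q1.testBit 0 <;> simp [h.hq, e1, dp]
      · rw [dec_xor, dec_sel, dec_one, dq2]
        cases q2.testBit 0 <;> simp [h.hq, e2, dp]
      · rw [dec_xor, dec_sel, dec_one, dq3]
        cases q3.testBit 0 <;> simp [h.hq, e3, dp]
      · rw [dec_xor, dec_sel, dec_one, dl1]
        cases q1.testBit 0 <;> simp [hny]
      · rw [dec_xor, dec_sel, dec_one, dl2]
        cases q2.testBit 0 <;> simp [hny]
      · rw [dec_xor, dec_sel, dec_one, dl3]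
        cases q3.testBit 0 <;> simp [hny]
    exact C.false_of_even rfl (tb _) (tb _) (tb _)
  · have C : Conf q β n c1 c2 c3 y t1 t2 t3 ⟨p, q1, q2, q3, f, l1, l2, l3⟩ :=
      { isQ := h, surj := surj, inj := inj, h12 := h12, h13 := h13, h23 := h23, hn1 := hn1,
        hn2 := hn2, hn3 := hn3, hny := hny, lp := lp, lq1 := lq1, lq2 := lq2, lq3 := lq3,
        lf := lf, ll1 := ll1, ll2 := ll2, ll3 := ll3, dp := dp, dq1 := dq1, dq2 := dq2,
        dq3 := dq3, df := df, dl1 := dl1, dl2 := dl2, dl3 := dl3 }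
    exact C.false_of_ne hp

lemma span_iso {S : Set V} (hS : ∀ s ∈ S, ∀ t ∈ S, β s t = 0) :
    ∀ u ∈ Submodule.span (ZMod 2) S, ∀ v ∈ Submodule.span (ZMod 2) S, β u v = 0 := by
  have h1 : ∀ s ∈ S, ∀ v ∈ Submodule.span (ZMod 2) S, β s v = 0 := by
    intro s hs v hv
    have : Submodule.span (ZMod 2) S ≤ LinearMap.ker (β s) :=
      Submodule.span_le.mpr (fun t ht => hS s hs t ht)
    exact this hv
  intro u hu v hv
  have : Submodule.span (ZMod 2) S ≤ LinearMap.ker (β.flip v) :=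
    Submodule.span_le.mpr (fun s hs => h1 s hs v hv)
  exact this hu

/-- no isotropic `3`-space -/
lemma noniso (h : IsQ q β) (bad : ¬ Good β) (hV : finrank (ZMod 2) V = 5) {n c d : V}
    (hli : LinearIndependent (ZMod 2) ![d, c, n]) (hc : β n c = 0) (hd : β n d = 0) :
    β c d ≠ 0 := by
  intro hcd
  apply bad
  refine ⟨Submodule.span (ZMod 2) (Set.range ![d, c, n]), ?_, ?_⟩
  · apply span_iso
    rintro s ⟨i, rfl⟩ t ⟨j, rfl⟩
    have e1 := h.symm c n
    have e2 := h.symm d n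
    have e3 := h.symm d c
    rw [hc] at e1
    rw [hd] at e2
    rw [hcd] at e3
    fin_cases i <;> fin_cases j <;> simp [hc, hd, hcd, e1, e2, e3, h.alt]
  · rw [finrank_span_eq_card hli, hV]
    simp

lemma li3 {n c1 c2 c3 : V} (h4 : LinearIndependent (ZMod 2) ![c3, c2, c1, n])
    (a1 a2 a3 b1 b2 b3 : ZMod 2) (hne : ∀ x y : ZMod 2, x * b1 + y * a1 = 0 →
      x * b2 + y * a2 = 0 → x * b3 + y * a3 = 0 → x = 0 ∧ y = 0) :
    LinearIndependent (ZMod 2)
      ![b3 • c3 + b2 • c2 + b1 • c1, a3 • c3 + a2 • c2 + a1 • c1, n] := by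
  rw [Fintype.linearIndependent_iff] at h4 ⊢
  intro g hg
  have h5 := h4 ![g 0 * b3 + g 1 * a3, g 0 * b2 + g 1 * a2, g 0 * b1 + g 1 * a1, g 2] (by
    rw [Fin.sum_univ_three] at hg
    rw [Fin.sum_univ_four]
    simp only [Matrix.cons_val] at hg ⊢
    rw [← hg]
    module)
  have h6 := h5 0
  have h7 := h5 1
  have h8 := h5 2
  have h9 := h5 3
  simp only [Matrix.cons_val] at h6 h7 h8 h9
  obtain ⟨hx, hy⟩ := hne (g 0) (g 1) h8 h7 h6
  intro i
  fin_cases i
  · exact hx
  · exact hy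
  · exact h9

/-- the three commutator values are independent -/
lemma tindep (h : IsQ q β) (bad : ¬ Good β) (hV : finrank (ZMod 2) V = 5) {n c1 c2 c3 : V}
    (h4 : LinearIndependent (ZMod 2) ![c3, c2, c1, n]) (hc1 : β n c1 = 0) (hc2 : β n c2 = 0)
    (hc3 : β n c3 = 0) : ∀ m < 8, dec (β c1 c2) (β c1 c3) (β c2 c3) m = 0 → m = 0 := by
  have key : ∀ a1 a2 a3 b1 b2 b3 : ZMod 2, (∀ x y : ZMod 2, x * b1 + y * a1 = 0 →
      x * b2 + y * a2 = 0 → x * b3 + y * a3 = 0 → x = 0 ∧ y = 0) →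
      β (a3 • c3 + a2 • c2 + a1 • c1) (b3 • c3 + b2 • c2 + b1 • c1) ≠ 0 := by
    intro a1 a2 a3 b1 b2 b3 hne
    exact noniso h bad hV (li3 h4 a1 a2 a3 b1 b2 b3 hne) (by simp [hc1, hc2, hc3])
      (by simp [hc1, hc2, hc3])
  have s12 := h.symm c2 c1
  have s13 := h.symm c3 c1
  have s23 := h.symm c3 c2
  have a1 := h.alt c1
  have a2 := h.alt c2
  have a3 := h.alt c3
  intro m hm hd
  interval_cases m
  · rfl
  · exact absurd (by simpa [dec, Nat.testBit, s12, s13, s23, a1, a2, a3] using hd)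
      (key 1 0 0 0 1 0 (by decide))
  · exact absurd (by simpa [dec, Nat.testBit, s12, s13, s23, a1, a2, a3] using hd)
      (key 1 0 0 0 0 1 (by decide))
  · exact absurd (by simpa [dec, Nat.testBit, s12, s13, s23, a1, a2, a3, add_comm] using hd)
      (key 1 0 0 0 1 1 (by decide))
  · exact absurd (by simpa [dec, Nat.testBit, s12, s13, s23, a1, a2, a3] using hd)
      (key 0 1 0 0 0 1 (by decide))
  · exact absurd (by simpa [dec, Nat.testBit, s12, s13, s23, a1, a2, a3, add_comm] using hd)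
      (key 1 0 1 0 1 0 (by decide))
  · exact absurd (by simpa [dec, Nat.testBit, s12, s13, s23, a1, a2, a3, add_comm] using hd)
      (key 1 1 0 0 0 1 (by decide))
  · exact absurd (by
      have e : β ((1 : ZMod 2) • c3 + (0 : ZMod 2) • c2 + (1 : ZMod 2) • c1)
        ((1 : ZMod 2) • c3 + (1 : ZMod 2) • c2 + (0 : ZMod 2) • c1) =
          β c1 c2 + β c1 c3 + β c2 c3 := by
        simp [s12, s13, s23, a1, a2, a3]
        abel
      rw [e]
      simpa [dec, Nat.testBit, add_assoc] using hd)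
      (key 1 0 1 0 1 1 (by decide))

lemma surj_of_inj [Finite T] (hT : finrank (ZMod 2) T = 3) {t1 t2 t3 : T}
    (inj : ∀ m < 8, dec t1 t2 t3 m = 0 → m = 0) : ∀ t, ∃ m < 8, dec t1 t2 t3 m = t := by
  have hcard : Nat.card T = 8 := by
    rw [Module.natCard_eq_pow_finrank (K := ZMod 2) (V := T), hT, Nat.card_zmod]
    norm_num
  have hinj : Function.Injective (fun m : Fin 8 => dec t1 t2 t3 m.val) := by
    intro a b hab
    have h1 : dec t1 t2 t3 (a.val ^^^ b.val) = 0 := by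
      rw [dec_xor, show dec t1 t2 t3 a.val = dec t1 t2 t3 b.val from hab, char2]
    exact Fin.ext (Nat.xor_eq_zero_iff.mp (inj _ (xor_lt_8 a.2 b.2) h1))
  have hsurj : Function.Surjective (fun m : Fin 8 => dec t1 t2 t3 m.val) := by
    have := Fintype.ofFinite T
    refine ((Fintype.bijective_iff_injective_and_card _).mpr ⟨hinj, ?_⟩).2
    rw [Fintype.card_fin, ← Nat.card_eq_fintype_card, hcard]
  intro t
  obtain ⟨m, hm⟩ := hsurj t
  exact ⟨m.val, m.2, hm⟩

lemma exists_notMem [Finite V] (W : Submodule (ZMod 2) V) (hW : 4 ≤ finrank (ZMod 2) W) {k : ℕ}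
    (hk : k < 4) (v : Fin k → V) : ∃ c ∈ W, c ∉ Submodule.span (ZMod 2) (Set.range v) := by
  by_contra hcon
  push Not at hcon
  have h1 : finrank (ZMod 2) W ≤ finrank (ZMod 2) (Submodule.span (ZMod 2) (Set.range v)) :=
    Submodule.finrank_mono (fun c hc => hcon c hc)
  have h2 : finrank (ZMod 2) (Submodule.span (ZMod 2) (Set.range v)) ≤ Fintype.card (Fin k) :=
    finrank_range_le_card v
  rw [Fintype.card_fin] at h2
  omega

lemma li_cons {k : ℕ} {v : Fin k → V} (hv : LinearIndependent (ZMod 2) v) {c : V}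
    (hc : c ∉ Submodule.span (ZMod 2) (Set.range v)) :
    LinearIndependent (ZMod 2) (Matrix.vecCons c v) :=
  linearIndependent_finCons.mpr ⟨hv, hc⟩

theorem five_a [Finite V] [Finite T] (h : MinL q β)
    (hV : Module.finrank (ZMod 2) V = 5) (hT : Module.finrank (ZMod 2) T = 3)
    {n : V} {b : T} (hn : n ≠ 0) (hb : b ≠ 0) (hnb : ∀ v, β n v = 0 ∨ β n v = b) : False := by
  have hQ := h.isQ
  have bad := h.bad
  set W := LinearMap.ker (β n) with hWdef
  have hW : 4 ≤ finrank (ZMod 2) W := by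
    have h1 := LinearMap.finrank_range_add_finrank_ker (β n)
    have h2 : finrank (ZMod 2) (LinearMap.range (β n)) ≤ 1 := by
      have h3 : LinearMap.range (β n) ≤ Submodule.span (ZMod 2) {b} := by
        rintro _ ⟨v, rfl⟩
        rcases hnb v with e | e <;> rw [e]
        · exact Submodule.zero_mem _
        · exact Submodule.mem_span_singleton_self b
      exact (Submodule.finrank_mono h3).trans (by
        have := finrank_span_le_card (R := ZMod 2) ({b} : Set T)
        simpa using this)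
    rw [hV] at h1
    change 4 ≤ finrank (ZMod 2) (LinearMap.ker (β n))
    omega
  obtain ⟨y, hy⟩ : ∃ y, β n y = b := by
    by_contra hcon
    push Not at hcon
    exact hn (h.rad n (fun w => (hnb w).resolve_right (hcon w)))
  have l1 : LinearIndependent (ZMod 2) ![n] := by
    rw [linearIndependent_unique_iff]
    simpa using hn
  -- first three vectors
  obtain ⟨e1, he1, h1⟩ := exists_notMem W hW (by norm_num) ![n]
  have l2 : LinearIndependent (ZMod 2) ![e1, n] := li_cons l1 h1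
  obtain ⟨e2, he2, h2⟩ := exists_notMem W hW (by norm_num) ![e1, n]
  have l3 : LinearIndependent (ZMod 2) ![e2, e1, n] := li_cons l2 h2
  obtain ⟨e3, he3, h3⟩ := exists_notMem W hW (by norm_num) ![e2, e1, n]
  have l4 : LinearIndependent (ZMod 2) ![e3, e2, e1, n] := li_cons l3 h3
  have inj := tindep hQ bad hV l4 he1 he2 he3
  obtain ⟨m, hm, hmb⟩ := surj_of_inj hT inj b
  -- b is a commutator
  have hB : ∃ c1 c2 : V, β n c1 = 0 ∧ β n c2 = 0 ∧ LinearIndependent (ZMod 2) ![c2, c1, n] ∧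
      β c1 c2 = b := by
    have key : ∀ a1 a2 a3 b1 b2 b3 : ZMod 2, (∀ x y : ZMod 2, x * b1 + y * a1 = 0 →
        x * b2 + y * a2 = 0 → x * b3 + y * a3 = 0 → x = 0 ∧ y = 0) →
        β (a3 • e3 + a2 • e2 + a1 • e1) (b3 • e3 + b2 • e2 + b1 • e1) = b →
        ∃ c1 c2 : V, β n c1 = 0 ∧ β n c2 = 0 ∧ LinearIndependent (ZMod 2) ![c2, c1, n] ∧
          β c1 c2 = b := by
      intro a1 a2 a3 b1 b2 b3 hne hbb
      have z1 : β n e1 = 0 := he1
      have z2 : β n e2 = 0 := he2
      have z3 : β n e3 = 0 := he3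
      exact ⟨_, _, by simp [z1, z2, z3], by simp [z1, z2, z3], li3 l4 a1 a2 a3 b1 b2 b3 hne, hbb⟩
    have s12 := hQ.symm e2 e1
    have s13 := hQ.symm e3 e1
    have s23 := hQ.symm e3 e2
    have a1 := hQ.alt e1
    have a2 := hQ.alt e2
    have a3 := hQ.alt e3
    rw [← hmb]
    interval_cases m
    · exact absurd (by simpa [dec] using hmb.symm) hb
    · rw [← hmb] at key
      exact key 1 0 0 0 1 0 (by decide) (by simp [dec, Nat.testBit, s12, s13, s23, a1, a2, a3])
    · rw [← hmb] at key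
      exact key 1 0 0 0 0 1 (by decide) (by simp [dec, Nat.testBit, s12, s13, s23, a1, a2, a3])
    · rw [← hmb] at key
      exact key 1 0 0 0 1 1 (by decide)
        (by simp [dec, Nat.testBit, s12, s13, s23, a1, a2, a3, add_comm])
    · rw [← hmb] at key
      exact key 0 1 0 0 0 1 (by decide) (by simp [dec, Nat.testBit, s12, s13, s23, a1, a2, a3])
    · rw [← hmb] at key
      exact key 1 0 1 0 1 0 (by decide)
        (by simp [dec, Nat.testBit, s12, s13, s23, a1, a2, a3, add_comm])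
    · rw [← hmb] at key
      exact key 1 1 0 0 0 1 (by decide)
        (by simp [dec, Nat.testBit, s12, s13, s23, a1, a2, a3, add_comm])
    · rw [← hmb] at key
      exact key 1 0 1 0 1 1 (by decide) (by
        simp [dec, Nat.testBit, s12, s13, s23, a1, a2, a3]
        abel)
  obtain ⟨c1, c2, hc1, hc2, l3', hbb⟩ := hB
  obtain ⟨c3, hc3, h3'⟩ := exists_notMem W hW (by norm_num) ![c2, c1, n]
  have l4' : LinearIndependent (ZMod 2) ![c3, c2, c1, n] := li_cons l3' h3'
  have inj' := tindep hQ bad hV l4' hc1 hc2 hc3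
  refine false_of_conf hQ (surj_of_inj hT inj') inj' rfl rfl rfl hc1 hc2 hc3 (y := y) ?_
  rw [hy, hbb]

end Main

end Pool.Agent.Helper5.Core2
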