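import Mathlib

/-! Kernel checks for the case `dim V = 5`, `dim T = 3`. -/

set_option autoImplicit false

namespace Pool.Agent.Helper5.Core2

/-- select -/
def sel (b : Bool) (t : ℕ) : ℕ := cond b t 0

/-- `t` is in the span of `a,b,c` (codes, xor). -/
def insp (t a b c : ℕ) : Bool :=
  t == 0 || t == a || t == b || t == c || t == (a ^^^ b) || t == (a ^^^ c) || t == (b ^^^ c) ||
    t == ((a ^^^ b) ^^^ c)

/-- A vector of `span(n,c1,c2,c3,y)`. -/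
structure Vec where
  x0 : Bool
  x1 : Bool
  x2 : Bool
  x3 : Bool
  x4 : Bool

def Vec.add (v w : Vec) : Vec :=
  ⟨xor v.x0 w.x0, xor v.x1 w.x1, xor v.x2 w.x2, xor v.x3 w.x3, xor v.x4 w.x4⟩

/-- decode a number `< 32` -/
def mkV (m : ℕ) : Vec := ⟨m.testBit 0, m.testBit 1, m.testBit 2, m.testBit 3, m.testBit 4⟩

/-- The data: codes of `q n, q c1, q c2, q c3, q y, β y c1, β y c2, β y c3`. -/
structure Dat where
  p : ℕ
  q1 : ℕ
  q2 : ℕ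
  q3 : ℕ
  f : ℕ
  l1 : ℕ
  l2 : ℕ
  l3 : ℕ

def qc (d : Dat) (v : Vec) : ℕ :=
  sel v.x0 d.p ^^^ (sel v.x1 d.q1 ^^^ (sel v.x2 d.q2 ^^^ (sel v.x3 d.q3 ^^^
  (sel (v.x1 && v.x2) 1 ^^^ (sel (v.x1 && v.x3) 2 ^^^ (sel (v.x2 && v.x3) 4 ^^^
  (sel v.x4 d.f ^^^ (sel (v.x0 && v.x4) 1 ^^^ (sel (v.x1 && v.x4) d.l1 ^^^
  (sel (v.x2 && v.x4) d.l2 ^^^ sel (v.x3 && v.x4) d.l3))))))))))

/-- `β v n`, `β v c1`, ... -/
def b0 (_ : Dat) (v : Vec) : ℕ := sel v.x4 1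
def b1 (d : Dat) (v : Vec) : ℕ := sel v.x2 1 ^^^ (sel v.x3 2 ^^^ sel v.x4 d.l1)
def b2 (d : Dat) (v : Vec) : ℕ := sel v.x1 1 ^^^ (sel v.x3 4 ^^^ sel v.x4 d.l2)
def b3 (d : Dat) (v : Vec) : ℕ := sel v.x1 2 ^^^ (sel v.x2 4 ^^^ sel v.x4 d.l3)
def b4 (d : Dat) (v : Vec) : ℕ :=
  sel v.x0 1 ^^^ (sel v.x1 d.l1 ^^^ (sel v.x2 d.l2 ^^^ sel v.x3 d.l3))

/-- `β(k, e_j)` is in the span for the `j` selected by the mask -/
def kOK (d : Dat) (k : Vec) (a b c : ℕ) (m : ℕ) : Bool :=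
  (!m.testBit 0 || insp (b0 d k) a b c) && ((!m.testBit 1 || insp (b1 d k) a b c) &&
  ((!m.testBit 2 || insp (b2 d k) a b c) && ((!m.testBit 3 || insp (b3 d k) a b c) &&
  (!m.testBit 4 || insp (b4 d k) a b c))))

/-- the mask of usable basis vectors -/
def msk (mH mY : ℕ) (k : Vec) : ℕ := cond k.x4 mY (cond (k.x1 || (k.x2 || k.x3)) mH 31)

/-- the condition (★) for the line through `v,w`, tested on the basis vectors in the masks -/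
def lineOK (d : Dat) (v w : Vec) (mH mY : ℕ) : Bool :=
  kOK d v (qc d v) (qc d w) (qc d (v.add w)) (msk mH mY v) ||
  (kOK d w (qc d v) (qc d w) (qc d (v.add w)) (msk mH mY w) ||
  kOK d (v.add w) (qc d v) (qc d w) (qc d (v.add w)) (msk mH mY (v.add w)))

def allLines (d : Dat) (L : List (ℕ × ℕ)) (mH mY : ℕ) : Bool :=
  L.all fun l => lineOK d (mkV l.1) (mkV l.2) mH mY

def La : List (ℕ × ℕ) := [(1,2), (1,4), (1,8), (1,10), (2,4), (2,5), (3,4), (3,5)]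
def Lb : List (ℕ × ℕ) :=
  [(2,8), (4,8), (7,8), (3,13), (5,11), (6,11), (2,12), (2,13), (4,10), (4,11), (7,10), (7,11)]
def Lc : List (ℕ × ℕ) := [(2,16), (3,16)]
def Ld : List (ℕ × ℕ) := [(2,20), (3,20), (4,16), (6,16)]
def Le : List (ℕ × ℕ) := [(2,8), (3,13), (5,24), (6,24), (2,28), (3,24), (3,28)]

def r8 : List ℕ := [0, 1, 2, 3, 4, 5, 6, 7]
def r4 : List ℕ := [0, 2, 4, 6]

theorem chk1 : (r8.all fun p => p == 1 || (r8.all fun q1 => r8.all fun q2 => r8.all fun q3 =>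
    !(allLines ⟨p, q1, q2, q3, 0, 0, 0, 0⟩ La 15 0))) = true := by decide +kernel

theorem chk2 : (r4.all fun q1 => r4.all fun q2 => r4.all fun q3 =>
    !(allLines ⟨1, q1, q2, q3, 0, 0, 0, 0⟩ Lb 15 0) ||
    (r8.all fun f => r8.all fun l1 => !(allLines ⟨1, q1, q2, q3, f, l1, 0, 0⟩ Lc 31 19) ||
    (r8.all fun l2 => !(allLines ⟨1, q1, q2, q3, f, l1, l2, 0⟩ Ld 31 23) ||
    (r8.all fun l3 => !(allLines ⟨1, q1, q2, q3, f, l1, l2, l3⟩ Le 31 31))))) = true := by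
  decide +kernel

end Pool.Agent.Helper5.Core2
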