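import Pool.Agent.Helper5.Core2.Defs
import Pool.Agent.Helper5.Core2.FiveCheck

set_option autoImplicit false

namespace Pool.Agent.Helper5.Core2

section Dec

variable {T : Type*} [AddCommGroup T] [Module (ZMod 2) T]

lemma char2 (t : T) : t + t = 0 := by
  have : (2 : ZMod 2) • t = 0 := by
    rw [show (2 : ZMod 2) = 0 from rfl, zero_smul]
  rwa [two_smul] at this

def dec (t1 t2 t3 : T) (m : ℕ) : T :=
  (if m.testBit 0 then t1 else 0) + ((if m.testBit 1 then t2 else 0) +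
    (if m.testBit 2 then t3 else 0))

lemma ite_xor (a b : Bool) (t : T) :
    (if (xor a b : Bool) then t else 0) = (if a then t else 0) + (if b then t else 0) := by
  cases a <;> cases b <;> simp [char2]

lemma dec_xor (t1 t2 t3 : T) (a b : ℕ) : dec t1 t2 t3 (a ^^^ b) = dec t1 t2 t3 a + dec t1 t2 t3 b := by
  unfold dec
  rw [Nat.testBit_xor, Nat.testBit_xor, Nat.testBit_xor, ite_xor, ite_xor, ite_xor]
  abel

lemma dec_sel (t1 t2 t3 : T) (b : Bool) (m : ℕ) :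
    dec t1 t2 t3 (sel b m) = if b then dec t1 t2 t3 m else 0 := by
  cases b
  · simp [sel, dec]
  · rfl

lemma mem_span_three {a b c t : T} (h : t ∈ Submodule.span (ZMod 2) {a, b, c}) :
    t = 0 ∨ t = a ∨ t = b ∨ t = c ∨ t = a + b ∨ t = a + c ∨ t = b + c ∨ t = a + b + c := by
  rw [Submodule.mem_span_insert] at h
  obtain ⟨α, z, hz, rfl⟩ := h
  rw [Submodule.mem_span_insert] at hz
  obtain ⟨γ, w, hw, rfl⟩ := hz
  rw [Submodule.mem_span_singleton] at hw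
  obtain ⟨δ, rfl⟩ := hw
  have h2 : ∀ x : ZMod 2, x = 0 ∨ x = 1 := by decide
  rcases h2 α with rfl | rfl <;> rcases h2 γ with rfl | rfl <;> rcases h2 δ with rfl | rfl <;>
    simp [add_assoc]

end Dec

section Core

variable {V T : Type*} [AddCommGroup V] [Module (ZMod 2) V] [AddCommGroup T] [Module (ZMod 2) T]
  {q : V → T} {β : V →ₗ[ZMod 2] V →ₗ[ZMod 2] T}

lemma IsQ.symm (h : IsQ q β) (x y : V) : β x y = β y x := by
  have h1 := h.hq x y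
  have h2 := h.hq y x
  rw [add_comm y x, h1] at h2
  have h3 : q x + q y + β x y = q x + q y + β y x := by
    rw [h2]; abel
  exact add_left_cancel h3

lemma IsQ.zero (h : IsQ q β) : q 0 = 0 := by
  have := h.hq 0 0
  simp at this
  exact this

lemma IsQ.alt (h : IsQ q β) (x : V) : β x x = 0 := by
  have h1 := h.hq x x
  rw [char2, h.zero, char2, zero_add] at h1
  exact h1.symm

def vec (n c1 c2 c3 y : V) (v : Vec) : V :=
  (if v.x0 then n else 0) + ((if v.x1 then c1 else 0) + ((if v.x2 then c2 else 0) +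
    ((if v.x3 then c3 else 0) + (if v.x4 then y else 0))))

lemma vec_add (n c1 c2 c3 y : V) (v w : Vec) :
    vec n c1 c2 c3 y (v.add w) = vec n c1 c2 c3 y v + vec n c1 c2 c3 y w := by
  unfold vec Vec.add
  simp only [ite_xor]
  abel

/-- Everything we know about the configuration. -/
structure Conf (q : V → T) (β : V →ₗ[ZMod 2] V →ₗ[ZMod 2] T) (n c1 c2 c3 y : V) (t1 t2 t3 : T)
    (d : Dat) : Prop where
  isQ : IsQ q β
  surj : ∀ t, ∃ m < 8, dec t1 t2 t3 m = t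
  inj : ∀ m < 8, dec t1 t2 t3 m = 0 → m = 0
  h12 : β c1 c2 = t1
  h13 : β c1 c3 = t2
  h23 : β c2 c3 = t3
  hn1 : β n c1 = 0
  hn2 : β n c2 = 0
  hn3 : β n c3 = 0
  hny : β n y = t1
  lp : d.p < 8
  lq1 : d.q1 < 8
  lq2 : d.q2 < 8
  lq3 : d.q3 < 8
  lf : d.f < 8
  ll1 : d.l1 < 8
  ll2 : d.l2 < 8
  ll3 : d.l3 < 8
  dp : dec t1 t2 t3 d.p = q n
  dq1 : dec t1 t2 t3 d.q1 = q c1
  dq2 : dec t1 t2 t3 d.q2 = q c2
  dq3 : dec t1 t2 t3 d.q3 = q c3
  df : dec t1 t2 t3 d.f = q y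
  dl1 : dec t1 t2 t3 d.l1 = β c1 y
  dl2 : dec t1 t2 t3 d.l2 = β c2 y
  dl3 : dec t1 t2 t3 d.l3 = β c3 y

variable {n c1 c2 c3 y : V} {t1 t2 t3 : T} {d : Dat}

omit [Module (ZMod 2) T] in
lemma dec_one : dec t1 t2 t3 1 = t1 := by
  simp [dec, Nat.testBit]

omit [Module (ZMod 2) T] in
lemma dec_two : dec t1 t2 t3 2 = t2 := by
  simp [dec, Nat.testBit]

omit [Module (ZMod 2) T] in
lemma dec_four : dec t1 t2 t3 4 = t3 := by
  simp [dec, Nat.testBit]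

lemma Conf.qc_eq (h : Conf q β n c1 c2 c3 y t1 t2 t3 d) (v : Vec) :
    dec t1 t2 t3 (qc d v) = q (vec n c1 c2 c3 y v) := by
  obtain ⟨a0, a1, a2, a3, a4⟩ := v
  unfold qc vec
  simp only [dec_xor, dec_sel, dec_one, dec_two, dec_four, h.dp, h.dq1, h.dq2, h.dq3, h.df, h.dl1,
    h.dl2, h.dl3]
  have hz := h.isQ.zero
  cases a0 <;> cases a1 <;> cases a2 <;> cases a3 <;> cases a4 <;>
    simp [h.isQ.hq, h.hn1, h.hn2, h.hn3, h.hny, h.h12, h.h13, h.h23, hz] <;> abel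

lemma Conf.b0_eq (h : Conf q β n c1 c2 c3 y t1 t2 t3 d) (v : Vec) :
    dec t1 t2 t3 (b0 d v) = β (vec n c1 c2 c3 y v) n := by
  have e1 := h.isQ.symm c1 n
  have e2 := h.isQ.symm c2 n
  have e3 := h.isQ.symm c3 n
  have e4 := h.isQ.symm y n
  have e0 := h.isQ.alt n
  rw [h.hn1] at e1
  rw [h.hn2] at e2
  rw [h.hn3] at e3
  rw [h.hny] at e4
  obtain ⟨a0, a1, a2, a3, a4⟩ := v
  unfold b0 vec
  simp only [dec_sel, dec_one]
  cases a0 <;> cases a1 <;> cases a2 <;> cases a3 <;> cases a4 <;> simp [e0, e1, e2, e3, e4]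

lemma Conf.b1_eq (h : Conf q β n c1 c2 c3 y t1 t2 t3 d) (v : Vec) :
    dec t1 t2 t3 (b1 d v) = β (vec n c1 c2 c3 y v) c1 := by
  have e1 := h.isQ.alt c1
  have e2 := h.isQ.symm c2 c1
  have e3 := h.isQ.symm c3 c1
  have e4 := h.isQ.symm y c1
  rw [h.h12] at e2
  rw [h.h13] at e3
  obtain ⟨a0, a1, a2, a3, a4⟩ := v
  unfold b1 vec
  simp only [dec_sel, dec_xor, dec_one, dec_two, h.dl1]
  cases a0 <;> cases a1 <;> cases a2 <;> cases a3 <;> cases a4 <;>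
    simp [h.hn1, e1, e2, e3, e4]

lemma Conf.b2_eq (h : Conf q β n c1 c2 c3 y t1 t2 t3 d) (v : Vec) :
    dec t1 t2 t3 (b2 d v) = β (vec n c1 c2 c3 y v) c2 := by
  have e1 := h.isQ.alt c2
  have e3 := h.isQ.symm c3 c2
  have e4 := h.isQ.symm y c2
  rw [h.h23] at e3
  obtain ⟨a0, a1, a2, a3, a4⟩ := v
  unfold b2 vec
  simp only [dec_sel, dec_xor, dec_one, dec_four, h.dl2]
  cases a0 <;> cases a1 <;> cases a2 <;> cases a3 <;> cases a4 <;>
    simp [h.hn2, h.h12, e1, e3, e4]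

lemma Conf.b3_eq (h : Conf q β n c1 c2 c3 y t1 t2 t3 d) (v : Vec) :
    dec t1 t2 t3 (b3 d v) = β (vec n c1 c2 c3 y v) c3 := by
  have e1 := h.isQ.alt c3
  have e4 := h.isQ.symm y c3
  obtain ⟨a0, a1, a2, a3, a4⟩ := v
  unfold b3 vec
  simp only [dec_sel, dec_xor, dec_two, dec_four, h.dl3]
  cases a0 <;> cases a1 <;> cases a2 <;> cases a3 <;> cases a4 <;>
    simp [h.hn3, h.h13, h.h23, e1, e4]

lemma Conf.b4_eq (h : Conf q β n c1 c2 c3 y t1 t2 t3 d) (v : Vec) :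
    dec t1 t2 t3 (b4 d v) = β (vec n c1 c2 c3 y v) y := by
  have e1 := h.isQ.alt y
  obtain ⟨a0, a1, a2, a3, a4⟩ := v
  unfold b4 vec
  simp only [dec_sel, dec_xor, dec_one, h.dl1, h.dl2, h.dl3]
  cases a0 <;> cases a1 <;> cases a2 <;> cases a3 <;> cases a4 <;>
    simp [h.hny, e1]

lemma xor_lt_8 {a b : ℕ} (ha : a < 8) (hb : b < 8) : a ^^^ b < 8 :=
  Nat.xor_lt_two_pow (n := 3) ha hb

lemma sel_lt_8 {b : Bool} {m : ℕ} (hm : m < 8) : sel b m < 8 := by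
  cases b <;> simp [sel, hm]

lemma Conf.qc_lt (h : Conf q β n c1 c2 c3 y t1 t2 t3 d) (v : Vec) : qc d v < 8 := by
  unfold qc
  exact xor_lt_8 (sel_lt_8 h.lp) <| xor_lt_8 (sel_lt_8 h.lq1) <| xor_lt_8 (sel_lt_8 h.lq2) <|
    xor_lt_8 (sel_lt_8 h.lq3) <| xor_lt_8 (sel_lt_8 (by norm_num)) <|
    xor_lt_8 (sel_lt_8 (by norm_num)) <| xor_lt_8 (sel_lt_8 (by norm_num)) <|
    xor_lt_8 (sel_lt_8 h.lf) <| xor_lt_8 (sel_lt_8 (by norm_num)) <|
    xor_lt_8 (sel_lt_8 h.ll1) <| xor_lt_8 (sel_lt_8 h.ll2) (sel_lt_8 h.ll3)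

lemma Conf.b_lt (h : Conf q β n c1 c2 c3 y t1 t2 t3 d) (v : Vec) :
    b0 d v < 8 ∧ b1 d v < 8 ∧ b2 d v < 8 ∧ b3 d v < 8 ∧ b4 d v < 8 := by
  refine ⟨?_, ?_, ?_, ?_, ?_⟩
  · exact sel_lt_8 (by norm_num)
  · exact xor_lt_8 (sel_lt_8 (by norm_num)) (xor_lt_8 (sel_lt_8 (by norm_num)) (sel_lt_8 h.ll1))
  · exact xor_lt_8 (sel_lt_8 (by norm_num)) (xor_lt_8 (sel_lt_8 (by norm_num)) (sel_lt_8 h.ll2))
  · exact xor_lt_8 (sel_lt_8 (by norm_num)) (xor_lt_8 (sel_lt_8 (by norm_num)) (sel_lt_8 h.ll3))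
  · exact xor_lt_8 (sel_lt_8 (by norm_num)) (xor_lt_8 (sel_lt_8 h.ll1)
      (xor_lt_8 (sel_lt_8 h.ll2) (sel_lt_8 h.ll3)))

lemma Conf.inj' (h : Conf q β n c1 c2 c3 y t1 t2 t3 d) {a b : ℕ} (ha : a < 8) (hb : b < 8)
    (hab : dec t1 t2 t3 a = dec t1 t2 t3 b) : a = b := by
  have h1 : dec t1 t2 t3 (a ^^^ b) = 0 := by rw [dec_xor, hab, char2]
  exact Nat.xor_eq_zero_iff.mp (h.inj _ (xor_lt_8 ha hb) h1)

lemma Conf.insp (h : Conf q β n c1 c2 c3 y t1 t2 t3 d) {t a b c : ℕ} (ht : t < 8) (ha : a < 8)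
    (hb : b < 8) (hc : c < 8)
    (hm : dec t1 t2 t3 t ∈ Submodule.span (ZMod 2)
      {dec t1 t2 t3 a, dec t1 t2 t3 b, dec t1 t2 t3 c}) : insp t a b c = true := by
  unfold Core2.insp
  have h0 : dec t1 t2 t3 0 = 0 := by simp [dec]
  rcases mem_span_three hm with e | e | e | e | e | e | e | e
  · rw [← h0] at e
    simp [h.inj' ht (by norm_num) e]
  · simp [h.inj' ht ha e]
  · simp [h.inj' ht hb e]
  · simp [h.inj' ht hc e]
  · rw [← dec_xor] at e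
    simp [h.inj' ht (xor_lt_8 ha hb) e]
  · rw [← dec_xor] at e
    simp [h.inj' ht (xor_lt_8 ha hc) e]
  · rw [← dec_xor] at e
    simp [h.inj' ht (xor_lt_8 hb hc) e]
  · rw [← dec_xor, ← dec_xor] at e
    simp [h.inj' ht (xor_lt_8 (xor_lt_8 ha hb) hc) e]

lemma Conf.kOK (h : Conf q β n c1 c2 c3 y t1 t2 t3 d) (k v w u : Vec)
    (hk : ∀ x, β (vec n c1 c2 c3 y k) x ∈ Submodule.span (ZMod 2)
      {q (vec n c1 c2 c3 y v), q (vec n c1 c2 c3 y w), q (vec n c1 c2 c3 y u)}) (m : ℕ) :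
    kOK d k (qc d v) (qc d w) (qc d u) m = true := by
  have hb := h.b_lt k
  have key : ∀ t : ℕ, t < 8 → (∃ x, dec t1 t2 t3 t = β (vec n c1 c2 c3 y k) x) →
      Core2.insp t (qc d v) (qc d w) (qc d u) = true := by
    rintro t ht ⟨x, hx⟩
    refine h.insp ht (h.qc_lt v) (h.qc_lt w) (h.qc_lt u) ?_
    rw [hx, h.qc_eq, h.qc_eq, h.qc_eq]
    exact hk x
  unfold Core2.kOK
  rw [key _ hb.1 ⟨n, h.b0_eq k⟩, key _ hb.2.1 ⟨c1, h.b1_eq k⟩, key _ hb.2.2.1 ⟨c2, h.b2_eq k⟩,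
    key _ hb.2.2.2.1 ⟨c3, h.b3_eq k⟩, key _ hb.2.2.2.2 ⟨y, h.b4_eq k⟩]
  simp

lemma Conf.lineOK (h : Conf q β n c1 c2 c3 y t1 t2 t3 d) (v w : Vec) (mH mY : ℕ) :
    lineOK d v w mH mY = true := by
  unfold Core2.lineOK
  have hs := h.isQ.star (vec n c1 c2 c3 y v) (vec n c1 c2 c3 y w)
  rw [← vec_add] at hs
  rcases hs with hs | hs | hs
  · rw [h.kOK v v w (v.add w) hs]; simp
  · rw [h.kOK w v w (v.add w) hs]; simp
  · rw [h.kOK (v.add w) v w (v.add w) hs]; simp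

lemma Conf.allLines (h : Conf q β n c1 c2 c3 y t1 t2 t3 d) (L : List (ℕ × ℕ)) (mH mY : ℕ) :
    allLines d L mH mY = true := by
  unfold Core2.allLines
  rw [List.all_eq_true]
  intro l _
  exact h.lineOK _ _ _ _

lemma allLines_congr (d d0 : Dat) (L : List (ℕ × ℕ)) (mH mY : ℕ)
    (hd : ∀ l ∈ L, Core2.lineOK d (mkV l.1) (mkV l.2) mH mY =
      Core2.lineOK d0 (mkV l.1) (mkV l.2) mH mY) :
    Core2.allLines d L mH mY = Core2.allLines d0 L mH mY := by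
  unfold Core2.allLines
  induction L with
  | nil => rfl
  | cons a L ih =>
    rw [List.all_cons, List.all_cons, hd a (by simp), ih (fun l hl => hd l (by simp [hl]))]

lemma congrA (p q1 q2 q3 f l1 l2 l3 : ℕ) :
    Core2.allLines ⟨p, q1, q2, q3, f, l1, l2, l3⟩ La 15 0 =
      Core2.allLines ⟨p, q1, q2, q3, 0, 0, 0, 0⟩ La 15 0 := by
  apply allLines_congr
  intro l hl
  simp only [La, List.mem_cons, List.not_mem_nil, or_false] at hl
  rcases hl with rfl | rfl | rfl | rfl | rfl | rfl | rfl | rfl <;> rfl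

lemma congrB (p q1 q2 q3 f l1 l2 l3 : ℕ) :
    Core2.allLines ⟨p, q1, q2, q3, f, l1, l2, l3⟩ Lb 15 0 =
      Core2.allLines ⟨p, q1, q2, q3, 0, 0, 0, 0⟩ Lb 15 0 := by
  apply allLines_congr
  intro l hl
  simp only [Lb, List.mem_cons, List.not_mem_nil, or_false] at hl
  rcases hl with rfl | rfl | rfl | rfl | rfl | rfl | rfl | rfl | rfl | rfl | rfl | rfl <;> rfl

lemma congrC (p q1 q2 q3 f l1 l2 l3 : ℕ) :
    Core2.allLines ⟨p, q1, q2, q3, f, l1, l2, l3⟩ Lc 31 19 =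
      Core2.allLines ⟨p, q1, q2, q3, f, l1, 0, 0⟩ Lc 31 19 := by
  apply allLines_congr
  intro l hl
  simp only [Lc, List.mem_cons, List.not_mem_nil, or_false] at hl
  rcases hl with rfl | rfl <;> rfl

lemma congrD (p q1 q2 q3 f l1 l2 l3 : ℕ) :
    Core2.allLines ⟨p, q1, q2, q3, f, l1, l2, l3⟩ Ld 31 23 =
      Core2.allLines ⟨p, q1, q2, q3, f, l1, l2, 0⟩ Ld 31 23 := by
  apply allLines_congr
  intro l hl
  simp only [Ld, List.mem_cons, List.not_mem_nil, or_false] at hl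
  rcases hl with rfl | rfl | rfl | rfl <;> rfl

lemma mem_r8 {m : ℕ} (hm : m < 8) : m ∈ r8 := by
  unfold r8; interval_cases m <;> simp

lemma mem_r4 {m : ℕ} (hm : m < 8) (h : m.testBit 0 = false) : m ∈ r4 := by
  unfold r4; interval_cases m <;> simp_all

lemma Conf.false_of_ne (h : Conf q β n c1 c2 c3 y t1 t2 t3 d) (hp : d.p ≠ 1) : False := by
  have h1 := chk1
  rw [List.all_eq_true] at h1
  have h2 := h1 d.p (mem_r8 h.lp)
  rw [Bool.or_eq_true] at h2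
  rcases h2 with h2 | h2
  · exact hp (by simpa using h2)
  rw [List.all_eq_true] at h2
  have h3 := h2 _ (mem_r8 h.lq1)
  rw [List.all_eq_true] at h3
  have h4 := h3 _ (mem_r8 h.lq2)
  rw [List.all_eq_true] at h4
  have h5 := h4 _ (mem_r8 h.lq3)
  have h6 := h.allLines La 15 0
  have h7 : Core2.allLines d La 15 0 = Core2.allLines ⟨d.p, d.q1, d.q2, d.q3, 0, 0, 0, 0⟩ La 15 0 :=
    congrA _ _ _ _ _ _ _ _
  rw [← h7, h6] at h5
  simp at h5

lemma Conf.false_of_even (h : Conf q β n c1 c2 c3 y t1 t2 t3 d) (hp : d.p = 1)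
    (e1 : d.q1.testBit 0 = false) (e2 : d.q2.testBit 0 = false) (e3 : d.q3.testBit 0 = false) :
    False := by
  obtain ⟨p, q1, q2, q3, f, l1, l2, l3⟩ := d
  simp only at hp e1 e2 e3
  subst hp
  have h1 := chk2
  rw [List.all_eq_true] at h1
  have h2 := h1 q1 (mem_r4 h.lq1 e1)
  rw [List.all_eq_true] at h2
  have h3 := h2 q2 (mem_r4 h.lq2 e2)
  rw [List.all_eq_true] at h3
  have h4 := h3 q3 (mem_r4 h.lq3 e3)
  rw [Bool.or_eq_true] at h4
  rcases h4 with h4 | h4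
  · have h6 := h.allLines Lb 15 0
    have h7 : Core2.allLines ⟨1, q1, q2, q3, f, l1, l2, l3⟩ Lb 15 0 =
      Core2.allLines ⟨1, q1, q2, q3, 0, 0, 0, 0⟩ Lb 15 0 := congrB _ _ _ _ _ _ _ _
    rw [← h7, h6] at h4
    simp at h4
  rw [List.all_eq_true] at h4
  have h5 := h4 f (mem_r8 h.lf)
  rw [List.all_eq_true] at h5
  have h6 := h5 l1 (mem_r8 h.ll1)
  rw [Bool.or_eq_true] at h6
  rcases h6 with h6 | h6
  · have h7 := h.allLines Lc 31 19
    have h8 : Core2.allLines ⟨1, q1, q2, q3, f, l1, l2, l3⟩ Lc 31 19 =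
      Core2.allLines ⟨1, q1, q2, q3, f, l1, 0, 0⟩ Lc 31 19 := congrC _ _ _ _ _ _ _ _
    rw [← h8, h7] at h6
    simp at h6
  rw [List.all_eq_true] at h6
  have h7 := h6 l2 (mem_r8 h.ll2)
  rw [Bool.or_eq_true] at h7
  rcases h7 with h7 | h7
  · have h8 := h.allLines Ld 31 23
    have h9 : Core2.allLines ⟨1, q1, q2, q3, f, l1, l2, l3⟩ Ld 31 23 =
      Core2.allLines ⟨1, q1, q2, q3, f, l1, l2, 0⟩ Ld 31 23 := congrD _ _ _ _ _ _ _ _
    rw [← h9, h8] at h7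
    simp at h7
  rw [List.all_eq_true] at h7
  have h8 := h7 l3 (mem_r8 h.ll3)
  rw [h.allLines Le 31 31] at h8
  simp at h8

end Core

end Pool.Agent.Helper5.Core2
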