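import Pool.Agent.Helper5.Core2.C8e
import Pool.Agent.Helper5.Core2.Five
import Pool.Agent.Helper20.Core2.Class2Elem
import Pool.Agent.Helper38.Core2.CCIndex
import Pool.Agent.Helper55.Core2.LinFinal
import Pool.Agent.Helper57.Core2.Case4
import Pool.Agent.Helper78.Core2.Lin1
import Pool.Agent.Helper84.Core2.Lin4
import Pool.Agent.Helper84.Core2.LinSmall
import Pool.Agent.Helper90.Core2.Reductions
import Pool.Agent.Helper95.Core2.Mono
import Pool.Agent.Helper35.Core2.SqComm
import Pool.Agent.Helper15.Core2.MCTFull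
import Pool.Agent.Helper4.Core2.Basics

/-! Assembly for MP_fafe86_al. -/

set_option autoImplicit false

namespace Pool.Agent.Helper5.Core2

open Subgroup

section Linear

variable {V T : Type*} [AddCommGroup V] [Module (ZMod 2) V] [AddCommGroup T] [Module (ZMod 2) T]
  {q : V → T} {β : V →ₗ[ZMod 2] V →ₗ[ZMod 2] T}

theorem MinL_false [Finite V] [Finite T] (h : MinL q β) : False := by
  obtain ⟨θ, hθ⟩ := Helper55.Core2.exists_rank_four h
  have h1 := Helper55.Core2.rad_le_one h θ hθ
  have rc := fun θ : Module.Dual (ZMod 2) T => Helper78.Core2.rank_cases h.isQ θ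
  rcases Nat.lt_or_ge (Module.finrank (ZMod 2) (RR β θ)) 1 with h2 | h2
  · exact h.bad (Helper84.Core2.four rc h.isQ (by omega))
  · have hV : Module.finrank (ZMod 2) V = 5 := by omega
    have hT := Helper55.Core2.finrank_T h hV
    obtain ⟨n, b, hn, hb, hnb⟩ := Helper84.Core2.exists_small
      (fun θ x y h1 h2 h3 => Helper78.Core2.club h.isQ θ h1 h2 h3) rc h hV hT
    exact five_a h hV hT hn hb hnb

end Linear

/-- Theorem L. -/
theorem theoremL (V T : Type) [AddCommGroup V] [Module (ZMod 2) V] [AddCommGroup T]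
    [Module (ZMod 2) T] [Finite V] [Finite T] (q : V → T) (β : V →ₗ[ZMod 2] V →ₗ[ZMod 2] T)
    (h : IsQ q β) : Good β :=
  Helper90.Core2.theoremL (fun _ _ _ _ _ _ _ _ _ _ h => MinL_false h) V T q β h

theorem om_card {G : Type} [Group G] [Finite G] (h : MinCE G) : 4 ≤ Nat.card (Om G) :=
  Helper90.Core2.om_card
    (fun hz => Helper95.Core2.MM (fun x y => Helper35.Core2.sq_comm h.c x y) h.c hz) h

theorem CC_index {G : Type} [Group G] [Finite G] (h : MinCE G) {x : G} (hx : x ^ 2 ∉ center G) :
    (CC G).index = 2 :=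
  Helper38.Core2.CC_index_of (fun h => om_card h)
    (fun K hK _ hz => Helper4.Core2.exists_mono K hK hz)
    (fun h N _ => Helper4.Core2.IsC.toQuotient h N)
    (fun hG _ hz _ _ _ hx hc hd hcd => Helper15.Core2.Full.MC hG hz hx hc hd hcd)
    (fun hG _ hz _ _ _ hx hy hne h1 h2 => Helper15.Core2.Full.MT hG hz hx hy hne h1 h2) h hx

theorem MinCE_false (G : Type) [Group G] [Finite G] (h : MinCE G) : False := by
  by_cases hcl : ∀ x : G, x ^ 2 ∈ center G
  · have hel := Helper20.Core2.class2_elem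
      (fun K hK _ hz => Helper4.Core2.exists_mono K hK hz)
      (fun N _ => Helper4.Core2.IsC.toQuotient h.c N)
      (fun hG _ hz hcl _ hζ hζ2 => Helper15.Core2.Full.Zc hG hz hcl hζ hζ2) h hcl
    exact h.notT (Helper90.Core2.class2_T (fun V T _ _ _ _ _ _ q β h => theoremL V T q β h) G h.c
      hcl hel)
  · push Not at hcl
    obtain ⟨x, hx⟩ := hcl
    have hC := CC_index h hx
    have h4 := om_card h
    rcases Nat.lt_or_ge (Nat.card (Om G)) 8 with h8 | h8
    · refine Helper57.Core2.case4
        (fun hG _ hz _ _ _ hx hc hd hcd => Helper15.Core2.Full.MC hG hz hx hc hd hcd)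
        (fun hG _ hz hcl _ hζ hζ2 => Helper15.Core2.Full.Zc hG hz hcl hζ hζ2) h hx hC ?_
      have : Fact (Nat.Prime 2) := ⟨Nat.prime_two⟩
      obtain ⟨n, hn⟩ := IsPGroup.iff_card.mp (h.c.two.to_subgroup (Om G))
      rw [hn] at h4 h8 ⊢
      have h5 : n < 3 := by
        by_contra h6
        have : 2 ^ 3 ≤ 2 ^ n := Nat.pow_le_pow_right (by norm_num) (by omega)
        omega
      interval_cases n <;> omega
    · obtain ⟨t, ht, ht1, hto⟩ := Helper38.Core2.exists_om h.c (g := x)
        (fun h' => hx (h' ▸ one_mem _))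
      exact Ctx.case8 ⟨h, hC, fun x y => Helper35.Core2.sq_comm h.c x y⟩ h8 ⟨hx, ht, ht1, hto⟩

theorem main (G : Type) [Group G] [Finite G] (h : IsC G) : TT G := by
  have key : ∀ n : ℕ, ∀ (G : Type) [Group G] [Finite G], Nat.card G = n → IsC G → TT G := by
    intro n
    induction n using Nat.strong_induction_on with
    | _ n ih =>
      intro G _ _ hn hG
      by_contra hT
      exact MinCE_false G (Helper90.Core2.minCE_of G hG hT
        (fun H => Helper4.Core2.IsC.toSubgroup hG H)
        (fun N _ => Helper4.Core2.IsC.toQuotient hG N)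
        (fun H _ _ hlt hH => ih _ (hn ▸ hlt) H rfl hH))
  exact key _ G rfl h

theorem final (G : Type) [Group G] [Finite G] (h2 : IsPGroup 2 G) (hcard : 2 < Nat.card G)
    (hcore : ∀ H : Subgroup G, (H.normalCore.subgroupOf H).index ≤ 2) :
    ∃ A : Subgroup G, (∀ x ∈ A, ∀ y ∈ A, x * y = y * x) ∧ A.index = 4 :=
  Helper4.Core2.exists_index_four h2 hcard (main G (Helper4.Core2.isC_of_core h2 hcore))

end Pool.Agent.Helper5.Core2
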